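import Pool.Agent.OMG.Ser

/-!
# OMH GROW: growth of `L(s, chi)` to the right of the line `1/2`

`Lf_series`: `Lf s = sum_k ((4k+1)^(-s) - (4k+3)^(-s))` for `Re s > 0`. With `σ = Re s` the `k`-th
term is at most `2 (4k+1)^(-σ)` and at most `2 |s| (4k+1)^(-σ-1)` (mean value), hence at most
`2 |s|^θ (4k+1)^(-σ-θ)` for `0 <= θ <= 1` (`min a b <= a^(1-θ) b^θ`); take `θ = 1/2 - δ`, then
`σ + θ >= 1 + δ` and the sum over `k` of `(4k+1)^(-1-δ)` converges.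
-/

set_option autoImplicit false

open Complex Finset Filter Topology MeasureTheory Pool.OMG

namespace Pool.OMH

private lemma grow_bound {s : ℂ} (hs : 0 < s.re) (k : ℕ) :
    ‖(4 * (k : ℂ) + 1) ^ (-s) - (4 * (k : ℂ) + 3) ^ (-s)‖ ≤
      2 * ‖s‖ * (4 * (k : ℝ) + 1) ^ (-s.re - 1) := by
  set a : ℝ := 4 * (k : ℝ) + 1 with ha
  have ha0 : 0 < a := by positivity
  have hs0 : s ≠ 0 := by rintro rfl; simp at hs
  have hder : ∀ x ∈ Set.Icc a (a + 2), HasDerivWithinAt (fun x : ℝ => (x : ℂ) ^ (-s))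
      (-s * (x : ℂ) ^ (-s - 1)) (Set.Icc a (a + 2)) x := by
    intro x hx
    have hx0 : 0 < x := lt_of_lt_of_le ha0 hx.1
    have h := hasDerivAt_ofReal_cpow_const (x := x) hx0.ne' (r := -s) (neg_ne_zero.mpr hs0)
    exact h.hasDerivWithinAt
  have hbd : ∀ x ∈ Set.Icc a (a + 2), ‖-s * (x : ℂ) ^ (-s - 1)‖ ≤ ‖s‖ * a ^ (-s.re - 1) := by
    intro x hx
    have hx0 : 0 < x := lt_of_lt_of_le ha0 hx.1
    rw [norm_mul, norm_neg, Complex.norm_cpow_eq_rpow_re_of_pos hx0]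
    refine mul_le_mul_of_nonneg_left ?_ (norm_nonneg _)
    have : (-s - 1).re = -s.re - 1 := by simp
    rw [this]
    exact Real.rpow_le_rpow_of_nonpos ha0 hx.1 (by linarith)
  have h := (convex_Icc a (a + 2)).norm_image_sub_le_of_norm_hasDerivWithin_le hder hbd
    (Set.right_mem_Icc.mpr (by linarith)) (Set.left_mem_Icc.mpr (by linarith))
  have e1 : (4 * (k : ℂ) + 1) ^ (-s) - (4 * (k : ℂ) + 3) ^ (-s) =
      (a : ℂ) ^ (-s) - ((a + 2 : ℝ) : ℂ) ^ (-s) := by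
    rw [ha]
    push_cast
    ring_nf
  rw [e1]
  refine h.trans (le_of_eq ?_)
  have : ‖a - (a + 2)‖ = 2 := by
    rw [show a - (a + 2) = -2 by ring]; norm_num
  rw [this]; ring

private lemma grow_triv {s : ℂ} (hs : 0 < s.re) (k : ℕ) :
    ‖(4 * (k : ℂ) + 1) ^ (-s) - (4 * (k : ℂ) + 3) ^ (-s)‖ ≤
      2 * (4 * (k : ℝ) + 1) ^ (-s.re) := by
  have e1 : (4 * (k : ℂ) + 1) = ((4 * (k : ℝ) + 1 : ℝ) : ℂ) := by push_cast; ring
  have e3 : (4 * (k : ℂ) + 3) = ((4 * (k : ℝ) + 3 : ℝ) : ℂ) := by push_cast; ring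
  have h1 : ‖(4 * (k : ℂ) + 1) ^ (-s)‖ = (4 * (k : ℝ) + 1) ^ (-s.re) := by
    rw [e1, Complex.norm_cpow_eq_rpow_re_of_pos (by positivity)]
    simp
  have h3 : ‖(4 * (k : ℂ) + 3) ^ (-s)‖ ≤ (4 * (k : ℝ) + 1) ^ (-s.re) := by
    rw [e3, Complex.norm_cpow_eq_rpow_re_of_pos (by positivity)]
    have : (-s).re = -s.re := by simp
    rw [this]
    exact Real.rpow_le_rpow_of_nonpos (by positivity) (by linarith) (by linarith)
  refine (norm_sub_le _ _).trans ?_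
  rw [h1]
  linarith

theorem Lf_growth {δ : ℝ} (h0 : 0 < δ) (h1 : δ ≤ 1 / 4) : ∃ C : ℝ, 0 < C ∧
    ∀ s : ℂ, 1 / 2 + 2 * δ ≤ s.re → ‖Lf s‖ ≤ C * ‖s‖ ^ (1 / 2 - δ) := by
  have hsummable : Summable (fun k : ℕ => 2 * ((k : ℝ) + 1) ^ (-1 - δ)) := by
    refine Summable.mul_left _ ?_
    have h : Summable (fun n : ℕ => ((n : ℝ) ^ (-1 - δ))) :=
      Real.summable_nat_rpow.mpr (by linarith)
    have h2 := (summable_nat_add_iff 1).mpr h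
    refine h2.congr (fun k => ?_)
    push_cast
    rfl
  have hpos : 0 ≤ ∑' k : ℕ, 2 * ((k : ℝ) + 1) ^ (-1 - δ) :=
    tsum_nonneg (fun k => by positivity)
  refine ⟨(∑' k : ℕ, 2 * ((k : ℝ) + 1) ^ (-1 - δ)) + 1, by linarith, ?_⟩
  intro s hs
  have hσ : 0 < s.re := by linarith
  set θ : ℝ := 1 / 2 - δ with hθ
  have hθ0 : 0 ≤ θ := by rw [hθ]; linarith
  have hθ1 : 0 ≤ 1 - θ := by rw [hθ]; linarith
  have hterm : ∀ k : ℕ, ‖(4 * (k : ℂ) + 1) ^ (-s) - (4 * (k : ℂ) + 3) ^ (-s)‖ ≤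
      ‖s‖ ^ θ * (2 * ((k : ℝ) + 1) ^ (-1 - δ)) := by
    intro k
    set a : ℝ := 4 * (k : ℝ) + 1 with ha
    have ha1 : 1 ≤ a := by rw [ha]; have := k.cast_nonneg (α := ℝ); linarith
    have ha0 : 0 < a := by linarith
    set x : ℝ := ‖(4 * (k : ℂ) + 1) ^ (-s) - (4 * (k : ℂ) + 3) ^ (-s)‖ with hx
    have hx0 : 0 ≤ x := norm_nonneg _
    have hb1 : x ≤ 2 * a ^ (-s.re) := grow_triv hσ k
    have hb2 : x ≤ 2 * ‖s‖ * a ^ (-s.re - 1) := grow_bound hσ k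
    have hxx : x = x ^ (1 - θ) * x ^ θ := by
      rw [← Real.rpow_add_of_nonneg hx0 hθ1 hθ0, sub_add_cancel, Real.rpow_one]
    have hp1 : x ^ (1 - θ) ≤ (2 * a ^ (-s.re)) ^ (1 - θ) := Real.rpow_le_rpow hx0 hb1 hθ1
    have hp2 : x ^ θ ≤ (2 * ‖s‖ * a ^ (-s.re - 1)) ^ θ := Real.rpow_le_rpow hx0 hb2 hθ0
    have hprod : (2 * a ^ (-s.re)) ^ (1 - θ) * (2 * ‖s‖ * a ^ (-s.re - 1)) ^ θ =
        2 * ‖s‖ ^ θ * a ^ (-s.re - θ) := by
      rw [Real.mul_rpow (by norm_num) (by positivity),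
        Real.mul_rpow (by positivity) (by positivity), Real.mul_rpow (by norm_num) (by positivity),
        ← Real.rpow_mul ha0.le, ← Real.rpow_mul ha0.le]
      have e2 : (2 : ℝ) ^ (1 - θ) * 2 ^ θ = 2 := by
        rw [← Real.rpow_add (by norm_num), sub_add_cancel, Real.rpow_one]
      have ea : a ^ (-s.re * (1 - θ)) * a ^ ((-s.re - 1) * θ) = a ^ (-s.re - θ) := by
        rw [← Real.rpow_add ha0]
        congr 1
        ring
      calc (2 : ℝ) ^ (1 - θ) * a ^ (-s.re * (1 - θ)) * (2 ^ θ * ‖s‖ ^ θ *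
            a ^ ((-s.re - 1) * θ))
          = (2 ^ (1 - θ) * 2 ^ θ) * ‖s‖ ^ θ *
            (a ^ (-s.re * (1 - θ)) * a ^ ((-s.re - 1) * θ)) := by ring
        _ = 2 * ‖s‖ ^ θ * a ^ (-s.re - θ) := by rw [e2, ea]
    have hak : a ^ (-s.re - θ) ≤ ((k : ℝ) + 1) ^ (-1 - δ) := by
      calc a ^ (-s.re - θ) ≤ a ^ (-1 - δ) :=
            Real.rpow_le_rpow_of_exponent_le ha1 (by rw [hθ]; linarith)
        _ ≤ ((k : ℝ) + 1) ^ (-1 - δ) :=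
            Real.rpow_le_rpow_of_nonpos (by positivity)
              (by rw [ha]; have := k.cast_nonneg (α := ℝ); linarith) (by linarith)
    calc x = x ^ (1 - θ) * x ^ θ := hxx
      _ ≤ (2 * a ^ (-s.re)) ^ (1 - θ) * (2 * ‖s‖ * a ^ (-s.re - 1)) ^ θ :=
          mul_le_mul hp1 hp2 (by positivity) (by positivity)
      _ = 2 * ‖s‖ ^ θ * a ^ (-s.re - θ) := hprod
      _ ≤ 2 * ‖s‖ ^ θ * ((k : ℝ) + 1) ^ (-1 - δ) :=
          mul_le_mul_of_nonneg_left hak (by positivity)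
      _ = ‖s‖ ^ θ * (2 * ((k : ℝ) + 1) ^ (-1 - δ)) := by ring
  have hser := Lf_series hσ
  have hbound : ‖Lf s‖ ≤ ∑' k : ℕ, ‖s‖ ^ θ * (2 * ((k : ℝ) + 1) ^ (-1 - δ)) := by
    rw [← hser.tsum_eq]
    exact tsum_of_norm_bounded (hsummable.mul_left _).hasSum hterm
  rw [tsum_mul_left] at hbound
  have hs0 : 0 ≤ ‖s‖ ^ θ := by positivity
  calc ‖Lf s‖ ≤ ‖s‖ ^ θ * ∑' k : ℕ, 2 * ((k : ℝ) + 1) ^ (-1 - δ) := hbound
    _ ≤ ((∑' k : ℕ, 2 * ((k : ℝ) + 1) ^ (-1 - δ)) + 1) * ‖s‖ ^ θ := by nlinarith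

end Pool.OMH
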