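import Pool.Agent.OMG.Prod
import Pool.Agent.OMG.Pder
import Pool.Agent.OMH.Grow

/-!
# OMH PLOC: local continuations of `P` with a uniform bound

For `Re s > 1`: `P' = Lf'/Lf + E`, `E(s) = sum χ(n) Λ(n) n^-s` over the `n` which are not prime;
`E` converges absolutely for `Re s > 1/2` and is bounded on `Re s >= σ1 > 1/2`. Fix
`r < q < s0 - Θ` and `c = s0 + t I`. On `ball c q` (zero-free, `Re > Θ`) let `ℓ` be the primitive of
`Lf'/Lf` with `ℓ(c) = log Lf(c)` and `e` the primitive of `E` with `e(c) = P(c) - ℓ(c)`;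
`g = ℓ + e`. Then `exp ℓ = Lf` on the ball, and Borel-Caratheodory (Mathlib:
`Complex.borelCaratheodory`): `Re ℓ = log |Lf| <= log (C |z|)` (`Lf_growth`), `|ℓ(c)| <= const`
(`Re c = s0 > 1`), so `|ℓ| <= C' log (2 + |t|) <= C'' (1 + |t|)^δ` on `closedBall c r`. (helper35)
-/

set_option autoImplicit false

open Complex Finset Filter Topology MeasureTheory Pool.OMG

namespace Pool.OMH

/-! ### the series `E` -/

private noncomputable def ee (n : ℕ) : ℂ :=
  if n.Prime then 0 else chi n * (ArithmeticFunction.vonMangoldt n : ℂ)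

private lemma norm_ee_le (n : ℕ) : ‖ee n‖ ≤ if n.Prime then 0 else ArithmeticFunction.vonMangoldt n := by
  unfold ee
  split_ifs
  · simp
  · rw [norm_mul, Complex.norm_real, Real.norm_of_nonneg ArithmeticFunction.vonMangoldt_nonneg]
    exact mul_le_of_le_one_left ArithmeticFunction.vonMangoldt_nonneg (chi.norm_le_one _)

private lemma ee_not_primePow {n : ℕ} (hn : ¬ IsPrimePow n) : ee n = 0 := by
  unfold ee
  rw [ArithmeticFunction.vonMangoldt_eq_zero_iff.2 hn]
  simp

private noncomputable def uu (σ : ℝ) (p : ℕ) : ℝ := Real.log p * (p : ℝ) ^ (-(2 * σ))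

private noncomputable def vv (σ : ℝ) (k : ℕ) : ℝ := ((2 : ℝ) ^ (-σ)) ^ (k - 1)

private lemma uu_nonneg (σ : ℝ) (p : ℕ) : 0 ≤ uu σ p := by
  unfold uu
  have := Real.log_natCast_nonneg p
  positivity

private lemma vv_nonneg (σ : ℝ) (k : ℕ) : 0 ≤ vv σ k := by
  unfold vv; positivity

private lemma vv_summable {σ : ℝ} (hσ : 0 < σ) : Summable (vv σ) := by
  rw [← summable_nat_add_iff 1]
  have : (fun n => vv σ (n + 1)) = fun n => ((2 : ℝ) ^ (-σ)) ^ n := by
    funext n; simp [vv]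
  rw [this]
  apply summable_geometric_of_lt_one (by positivity)
  exact Real.rpow_lt_one_of_one_lt_of_neg (by norm_num) (by linarith)

private lemma uu_summable {σ : ℝ} (hσ : 1 / 2 < σ) : Summable (uu σ) := by
  set η : ℝ := σ - 1 / 2 with hη
  have hη0 : 0 < η := by linarith
  have h : Summable (fun n : ℕ => (1 / η) * (n : ℝ) ^ (-(1 + η))) :=
    (Real.summable_nat_rpow.2 (by linarith)).mul_left _
  refine Summable.of_nonneg_of_le (uu_nonneg σ) (fun n => ?_) h
  rcases Nat.eq_zero_or_pos n with rfl | hn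
  · unfold uu
    simp only [Nat.cast_zero, Real.log_zero, zero_mul]
    positivity
  have hn' : (0 : ℝ) < n := by exact_mod_cast hn
  unfold uu
  have h1 : Real.log n ≤ (n : ℝ) ^ η / η := Real.log_le_rpow_div hn'.le hη0
  calc Real.log n * (n : ℝ) ^ (-(2 * σ)) ≤ ((n : ℝ) ^ η / η) * (n : ℝ) ^ (-(2 * σ)) := by gcongr
    _ = (1 / η) * ((n : ℝ) ^ η * (n : ℝ) ^ (-(2 * σ))) := by ring
    _ = (1 / η) * (n : ℝ) ^ (-(1 + η)) := by
        rw [← Real.rpow_add hn']
        congr 2
        rw [hη]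
        ring

private lemma term_le {σ : ℝ} (hσ : 0 < σ) (p : Nat.Primes) (k : ℕ) :
    ‖ee ((p : ℕ) ^ (k + 1))‖ / (((p : ℕ) ^ (k + 1) : ℕ) : ℝ) ^ σ ≤ uu σ p * vv σ k := by
  obtain ⟨p, hp⟩ := p
  have hp0 : (0 : ℝ) < p := by exact_mod_cast hp.pos
  have hlog : 0 ≤ Real.log p := Real.log_natCast_nonneg _
  change ‖ee (p ^ (k + 1))‖ / ((p ^ (k + 1) : ℕ) : ℝ) ^ σ ≤ uu σ p * vv σ k
  have hnn : 0 ≤ uu σ p * vv σ k := mul_nonneg (uu_nonneg σ p) (vv_nonneg σ k)
  rcases Nat.eq_zero_or_pos k with rfl | hk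
  · have : ee (p ^ (0 + 1)) = 0 := by
      unfold ee
      rw [zero_add, pow_one, if_pos hp]
    rw [this, norm_zero, zero_div]
    exact hnn
  obtain ⟨j, rfl⟩ := Nat.exists_eq_add_of_le hk
  have h1 : ‖ee (p ^ (1 + j + 1))‖ ≤ Real.log p := by
    refine (norm_ee_le _).trans ?_
    rw [if_neg (Nat.Prime.not_prime_pow (by omega)),
      ArithmeticFunction.vonMangoldt_apply_pow (by omega),
      ArithmeticFunction.vonMangoldt_apply_prime hp]
  have h2 : vv σ (1 + j) = ((2 : ℝ) ^ (-σ)) ^ j := by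
    unfold vv
    congr 1
    omega
  have h3 : (((p ^ (1 + j + 1) : ℕ) : ℝ)) ^ σ = (p : ℝ) ^ (2 * σ) * ((p : ℝ) ^ σ) ^ j := by
    rw [Nat.cast_pow, ← Real.rpow_natCast, ← Real.rpow_natCast, ← Real.rpow_mul hp0.le,
      ← Real.rpow_mul hp0.le, ← Real.rpow_add hp0]
    congr 1
    push_cast
    ring
  rw [h2, h3, div_le_iff₀ (by positivity)]
  unfold uu
  have h4 : (p : ℝ) ^ (-(2 * σ)) * (p : ℝ) ^ (2 * σ) = 1 := by
    rw [← Real.rpow_add hp0]
    simp
  have h5 : 1 ≤ ((2 : ℝ) ^ (-σ)) ^ j * ((p : ℝ) ^ σ) ^ j := by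
    rw [← mul_pow]
    apply one_le_pow₀
    have : (2 : ℝ) ^ (-σ) * (2 : ℝ) ^ σ = 1 := by
      rw [← Real.rpow_add (by norm_num)]
      simp
    rw [← this]
    have hp2 : (2 : ℝ) ≤ p := by exact_mod_cast hp.two_le
    gcongr
  calc ‖ee (p ^ (1 + j + 1))‖ ≤ Real.log p * 1 := by linarith
    _ ≤ Real.log p * (((2 : ℝ) ^ (-σ)) ^ j * ((p : ℝ) ^ σ) ^ j) :=
        mul_le_mul_of_nonneg_left h5 hlog
    _ = Real.log p * ((p : ℝ) ^ (-(2 * σ)) * (p : ℝ) ^ (2 * σ)) *
        (((2 : ℝ) ^ (-σ)) ^ j * ((p : ℝ) ^ σ) ^ j) := by rw [h4]; ring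
    _ = _ := by ring

private lemma ee_summable {σ : ℝ} (hσ : 1 / 2 < σ) : LSeriesSummable ee (σ : ℂ) := by
  apply Summable.of_norm
  have hinj : Function.Injective (fun q : Nat.Primes × ℕ => (q.1 : ℕ) ^ (q.2 + 1)) := by
    intro a b hab
    apply Nat.Primes.prodNatEquiv.injective
    apply Subtype.ext
    rw [Nat.Primes.coe_prodNatEquiv_apply, Nat.Primes.coe_prodNatEquiv_apply]
    exact hab
  have hsupp : ∀ n ∉ Set.range (fun q : Nat.Primes × ℕ => (q.1 : ℕ) ^ (q.2 + 1)),
      ‖LSeries.term ee (σ : ℂ) n‖ = 0 := by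
    intro n hn
    rw [LSeries.norm_term_eq]
    split_ifs with h0
    · rfl
    · have : ¬ IsPrimePow n := by
        intro h
        apply hn
        refine ⟨Nat.Primes.prodNatEquiv.symm ⟨n, h⟩, ?_⟩
        have := Nat.Primes.coe_prodNatEquiv_apply (Nat.Primes.prodNatEquiv.symm ⟨n, h⟩).1
          (Nat.Primes.prodNatEquiv.symm ⟨n, h⟩).2
        rw [Prod.mk.eta, Equiv.apply_symm_apply] at this
        exact this.symm
      rw [ee_not_primePow this, norm_zero, zero_div]
  rw [← hinj.summable_iff hsupp]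
  have hprod : Summable (fun q : Nat.Primes × ℕ => uu σ q.1 * vv σ q.2) := by
    have h1 : Summable (fun p : Nat.Primes => uu σ p) :=
      (uu_summable hσ).comp_injective Nat.Primes.coe_nat_injective
    exact h1.mul_of_nonneg (vv_summable (by linarith)) (fun p => uu_nonneg σ p) (vv_nonneg σ)
  refine Summable.of_nonneg_of_le (fun q => norm_nonneg _) (fun q => ?_) hprod
  rw [Function.comp_apply, LSeries.norm_term_eq]
  have hne : (q.1 : ℕ) ^ (q.2 + 1) ≠ 0 := pow_ne_zero _ q.1.2.ne_zero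
  rw [if_neg hne, Complex.ofReal_re]
  exact term_le (by linarith) q.1 q.2

/-- uniform bound of an absolutely convergent Dirichlet series -/
private lemma LSeries_bound {f : ℕ → ℂ} {σ : ℝ} (h : LSeriesSummable f (σ : ℂ)) :
    ∃ C : ℝ, 0 < C ∧ ∀ s : ℂ, σ ≤ s.re → ‖LSeries f s‖ ≤ C := by
  refine ⟨∑' n, ‖LSeries.term f (σ : ℂ) n‖ + 1, ?_, fun s hs => ?_⟩
  · have : 0 ≤ ∑' n, ‖LSeries.term f (σ : ℂ) n‖ := tsum_nonneg fun n => norm_nonneg _
    linarith
  · have h1 : LSeriesSummable f s := h.of_re_le_re (by simpa using hs)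
    have h2 : ∀ n, ‖LSeries.term f s n‖ ≤ ‖LSeries.term f (σ : ℂ) n‖ :=
      LSeries.norm_term_le_of_re_le_re f (by simpa using hs)
    calc ‖LSeries f s‖ ≤ ∑' n, ‖LSeries.term f s n‖ := norm_tsum_le_tsum_norm h1.norm
      _ ≤ ∑' n, ‖LSeries.term f (σ : ℂ) n‖ := h1.norm.tsum_le_tsum h2 h.norm
      _ ≤ _ := by linarith

private lemma ee_diff : DifferentiableOn ℂ (LSeries ee) {s | 1 / 2 < s.re} := by
  refine (LSeries_differentiableOn ee).mono ?_
  intro s hs
  have hs : 1 / 2 < s.re := hs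
  have h1 := (ee_summable (show 1 / 2 < (1 / 2 + s.re) / 2 by linarith)).abscissaOfAbsConv_le
  rw [Complex.ofReal_re] at h1
  refine lt_of_le_of_lt h1 ?_
  exact_mod_cast (by linarith : (1 / 2 + s.re) / 2 < s.re)

private lemma chip_abs' {s : ℂ} (hs : 1 < s.re) : LSeries.abscissaOfAbsConv chip < s.re := by
  have h : (1 : ℝ) < (1 + s.re) / 2 := by linarith
  have h1 : LSeriesSummable chip (((1 + s.re) / 2 : ℝ) : ℂ) :=
    chip_summable (by rw [Complex.ofReal_re]; exact h)
  have h2 := h1.abscissaOfAbsConv_le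
  rw [Complex.ofReal_re] at h2
  refine lt_of_le_of_lt h2 ?_
  exact_mod_cast (by linarith : (1 + s.re) / 2 < s.re)

/-- `P' = Lf'/Lf + E` for `Re s > 1` -/
private lemma P_deriv_ee {s : ℂ} (hs : 1 < s.re) :
    deriv P s = deriv Lf s / Lf s + LSeries ee s := by
  have h1 : deriv P s = - LSeries (LSeries.logMul chip) s := LSeries_deriv (chip_abs' hs)
  set chiv : ℕ → ℂ := (fun n : ℕ => chi n) * fun n : ℕ =>
    (ArithmeticFunction.vonMangoldt n : ℂ) with hchiv
  have h2 : deriv Lf s / Lf s = - LSeries chiv s := by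
    have h3 := DirichletCharacter.LSeries_twist_vonMangoldt_eq chi hs
    have h4 : deriv Lf s = deriv (LSeries (fun n : ℕ => chi n)) s :=
      DirichletCharacter.deriv_LFunction_eq_deriv_LSeries chi hs
    have h5 : Lf s = LSeries (fun n : ℕ => chi n) s :=
      DirichletCharacter.LFunction_eq_LSeries chi hs
    have h6 : LSeries chiv s = - deriv (LSeries (fun n : ℕ => chi n)) s /
      LSeries (fun n : ℕ => chi n) s := h3
    rw [h6, h4, h5]
    ring
  have hs1 : LSeriesSummable (LSeries.logMul chip) s :=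
    LSeriesSummable_logMul_of_lt_re (chip_abs' hs)
  have hs2 : LSeriesSummable chiv s :=
    DirichletCharacter.LSeriesSummable_twist_vonMangoldt chi hs
  have h7 : ee = chiv - LSeries.logMul chip := by
    funext n
    simp only [ee, hchiv, Pi.sub_apply, Pi.mul_apply, LSeries.logMul, chip]
    by_cases hn : n.Prime
    · rw [if_pos hn, if_pos hn, ArithmeticFunction.vonMangoldt_apply_prime hn,
        Complex.natCast_log]
      ring
    · rw [if_neg hn, if_neg hn]
      ring
  rw [h7, LSeries_sub hs2 hs1, h1, h2]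
  ring

/-! ### uniform bounds at `c` -/

private lemma log_Lf_bound {s0 : ℝ} (h1 : 1 < s0) : ∃ C : ℝ, 0 < C ∧
    ∀ t : ℝ, ‖Complex.log (Lf ((s0 : ℂ) + t * I))‖ ≤ C := by
  obtain ⟨C1, hC1, hb1⟩ := LSeries_bound (f := fun n : ℕ => chi n) (σ := s0)
    (DirichletCharacter.LSeriesSummable_of_one_lt_re chi (by simpa using h1))
  obtain ⟨C2, hC2, hb2⟩ := LSeries_bound
    (f := (fun n : ℕ => chi n) * fun n : ℕ => ((ArithmeticFunction.moebius n : ℤ) : ℂ)) (σ := s0)
    (DirichletCharacter.LSeriesSummable_mul chi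
      (ArithmeticFunction.LSeriesSummable_moebius_iff.mpr (by simpa using h1)))
  refine ⟨|Real.log C1| + |Real.log C2| + Real.pi, by positivity, fun t => ?_⟩
  set c : ℂ := (s0 : ℂ) + t * I with hc
  have hre : c.re = s0 := by simp [hc]
  have hc1 : 1 < c.re := by rw [hre]; exact h1
  have e1 : Lf c = LSeries (fun n : ℕ => chi n) c := DirichletCharacter.LFunction_eq_LSeries chi hc1
  have h2 := DirichletCharacter.LSeries.mul_mu_eq_one chi hc1
  rw [← e1] at h2
  have h3 : ‖Lf c‖ ≤ C1 := by rw [e1]; exact hb1 c hre.ge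
  have h4 := hb2 c hre.ge
  have h5 := congrArg norm h2
  rw [norm_mul, norm_one] at h5
  have h6 : 0 < ‖Lf c‖ := by
    rw [norm_pos_iff]
    intro h
    rw [h, zero_mul] at h2
    exact zero_ne_one h2
  have h7 : 1 ≤ ‖Lf c‖ * C2 := by
    rw [← h5]
    exact mul_le_mul_of_nonneg_left h4 h6.le
  have h8 : Real.log ‖Lf c‖ ≤ Real.log C1 := Real.log_le_log h6 h3
  have h9 : 0 ≤ Real.log ‖Lf c‖ + Real.log C2 := by
    rw [← Real.log_mul h6.ne' hC2.ne']
    exact Real.log_nonneg h7
  have h10 : |Real.log ‖Lf c‖| ≤ |Real.log C1| + |Real.log C2| := by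
    rw [abs_le]
    constructor
    · have := le_abs_self (Real.log C2)
      have := abs_nonneg (Real.log C1)
      linarith
    · have := le_abs_self (Real.log C1)
      have := abs_nonneg (Real.log C2)
      linarith
  have h11 := Complex.norm_le_abs_re_add_abs_im (Complex.log (Lf c))
  rw [Complex.log_re, Complex.log_im] at h11
  have h12 := Complex.abs_arg_le_pi (Lf c)
  linarith

/-- a function with the derivative `Lf'/Lf` on a ball, equal to `log Lf` at the centre, is a logarithm -/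
private lemma exp_prim {c : ℂ} {q : ℝ} (hq : 0 < q) (hne : ∀ z ∈ Metric.ball c q, Lf z ≠ 0) {ℓ : ℂ → ℂ}
    (hc : ℓ c = Complex.log (Lf c)) (hd : ∀ z ∈ Metric.ball c q, HasDerivAt ℓ (deriv Lf z / Lf z) z) :
    ∀ z ∈ Metric.ball c q, Complex.exp (ℓ z) = Lf z := by
  have hcm : c ∈ Metric.ball c q := Metric.mem_ball_self hq
  have h1 : ∀ z ∈ Metric.ball c q, HasDerivAt (fun z => Lf z * Complex.exp (-ℓ z)) 0 z := by
    intro z hz
    have h2 : HasDerivAt Lf (deriv Lf z) z := (Lf_differentiable z).hasDerivAt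
    have h3 := h2.mul ((hd z hz).neg.cexp)
    have e : deriv Lf z * Complex.exp (-ℓ z) + Lf z * (Complex.exp (-ℓ z) * -(deriv Lf z / Lf z)) = 0 := by
      have := hne z hz
      field_simp
      ring
    rw [← e]
    exact h3
  intro z hz
  have h4 : Lf z * Complex.exp (-ℓ z) = Lf c * Complex.exp (-ℓ c) := by
    apply (convex_ball c q).is_const_of_fderivWithin_eq_zero (𝕜 := ℂ) (f := fun z => Lf z * Complex.exp (-ℓ z))
      (fun w hw => (h1 w hw).differentiableAt.differentiableWithinAt) ?_ hz hcm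
    intro w hw
    have := (h1 w hw).hasFDerivAt.hasFDerivWithinAt (s := Metric.ball c q)
    rw [this.fderivWithin (Metric.isOpen_ball.uniqueDiffWithinAt hw)]
    ext
    simp
  have h5 : Complex.exp (-Complex.log (Lf c)) = (Lf c)⁻¹ := by
    rw [Complex.exp_neg, Complex.exp_log (hne c hcm)]
  rw [hc, h5, mul_inv_cancel₀ (hne c hcm), Complex.exp_neg, ← div_eq_mul_inv,
    div_eq_one_iff_eq (Complex.exp_ne_zero _)] at h4
  exact h4.symm

theorem P_local {Θ : ℝ} (hΘ : 1 / 2 ≤ Θ) (hz : ∀ s : ℂ, Θ < s.re → Lf s ≠ 0) {s0 r δ : ℝ}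
    (h1 : 1 < s0) (hr : 0 < r) (hr2 : r < s0 - Θ) (hδ : 0 < δ) :
    ∃ C q : ℝ, 0 < C ∧ r < q ∧ q < s0 - Θ ∧ ∀ t : ℝ, ∃ g : ℂ → ℂ,
      DifferentiableOn ℂ g (Metric.ball ((s0 : ℂ) + t * I) q) ∧
      g =ᶠ[𝓝 ((s0 : ℂ) + t * I)] P ∧
      ∀ z ∈ Metric.closedBall ((s0 : ℂ) + t * I) r, ‖g z‖ ≤ C * (1 + |t|) ^ δ := by
  obtain ⟨q, hrq, hqs⟩ := exists_between hr2
  have hq0 : 0 < q := hr.trans hrq
  set σ : ℝ := s0 - q with hσ
  have hσ1 : Θ < σ := by linarith
  have hσ2 : 1 / 2 < σ := by linarith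
  -- constants
  obtain ⟨CE, hCE, hE⟩ := LSeries_bound (ee_summable hσ2)
  obtain ⟨CP, hCP, hP⟩ := LSeries_bound (f := chip) (σ := s0) (chip_summable (by simpa using h1))
  obtain ⟨Cl, hCl, hl⟩ := log_Lf_bound h1
  set δ' : ℝ := min (1 / 4) ((σ - 1 / 2) / 2) with hδ'
  have hδ'0 : 0 < δ' := lt_min (by norm_num) (by linarith)
  have hδ'1 : δ' ≤ 1 / 4 := min_le_left _ _
  have hδ'2 : δ' ≤ (σ - 1 / 2) / 2 := min_le_right _ _
  obtain ⟨CG, hCG, hG⟩ := Lf_growth hδ'0 hδ'1
  -- bound of `Lf` on the balls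
  set C1 : ℝ := CG * (2 + s0 + q) + 1 with hC1
  have hs0 : 0 < s0 := by linarith
  have hC1p : 1 < C1 := by
    have : 0 < CG * (2 + s0 + q) := by positivity
    linarith
  have hLf : ∀ (t : ℝ) (z : ℂ), z ∈ Metric.ball ((s0 : ℂ) + t * I) q →
      ‖Lf z‖ ≤ C1 * (1 + |t|) ∧ σ < z.re := by
    intro t z hz
    rw [Metric.mem_ball, dist_eq_norm] at hz
    have h2 : |(z - ((s0 : ℂ) + t * I)).re| ≤ ‖z - ((s0 : ℂ) + t * I)‖ := Complex.abs_re_le_norm _
    have h3 : (z - ((s0 : ℂ) + t * I)).re = z.re - s0 := by simp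
    rw [h3] at h2
    have h4 : σ < z.re := by
      have := (abs_lt.1 (h2.trans_lt hz)).1
      rw [hσ]
      linarith
    refine ⟨?_, h4⟩
    have h5 := hG z (by linarith)
    have h6 : ‖z‖ ≤ q + (s0 + |t|) := by
      calc ‖z‖ = ‖(z - ((s0 : ℂ) + t * I)) + ((s0 : ℂ) + t * I)‖ := by rw [sub_add_cancel]
        _ ≤ ‖z - ((s0 : ℂ) + t * I)‖ + (‖(s0 : ℂ)‖ + ‖(t : ℂ) * I‖) :=
            (norm_add_le _ _).trans (add_le_add le_rfl (norm_add_le _ _))
        _ ≤ q + (s0 + |t|) := by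
            rw [Complex.norm_real, norm_mul, Complex.norm_real, Complex.norm_I, mul_one,
              Real.norm_of_nonneg hs0.le, Real.norm_eq_abs]
            linarith
    have h7 : ‖z‖ ^ (1 / 2 - δ') ≤ 1 + ‖z‖ := by
      have h8 : ‖z‖ ^ (1 / 2 - δ') ≤ (1 + ‖z‖) ^ (1 / 2 - δ') :=
        Real.rpow_le_rpow (norm_nonneg _) (by linarith) (by linarith)
      refine h8.trans ?_
      calc (1 + ‖z‖) ^ (1 / 2 - δ') ≤ (1 + ‖z‖) ^ (1 : ℝ) :=
            Real.rpow_le_rpow_of_exponent_le (by linarith [norm_nonneg z]) (by linarith)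
        _ = 1 + ‖z‖ := Real.rpow_one _
    have h9 : 1 + ‖z‖ ≤ (2 + s0 + q) * (1 + |t|) := by
      have := abs_nonneg t
      nlinarith
    calc ‖Lf z‖ ≤ CG * ‖z‖ ^ (1 / 2 - δ') := h5
      _ ≤ CG * ((2 + s0 + q) * (1 + |t|)) := mul_le_mul_of_nonneg_left (h7.trans h9) hCG.le
      _ ≤ C1 * (1 + |t|) := by
          rw [hC1]
          have := abs_nonneg t
          nlinarith
  -- the final constant
  set K1 : ℝ := 2 * r / (q - r) with hK1
  set K2 : ℝ := (q + r) / (q - r) with hK2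
  have hqr : 0 < q - r := by linarith
  have hK1p : 0 ≤ K1 := by positivity
  have hK2p : 0 ≤ K2 := by positivity
  have hlC1 : 0 < Real.log C1 := Real.log_pos hC1p
  refine ⟨K1 * (Real.log C1 + 1 / δ) + Cl * K2 + CP + Cl + CE * r + 1, q, by positivity, hrq, hqs,
    fun t => ?_⟩
  set c : ℂ := (s0 : ℂ) + t * I with hc
  have hcre : c.re = s0 := by simp [hc]
  have hcm : c ∈ Metric.ball c q := Metric.mem_ball_self hq0
  have hne : ∀ z ∈ Metric.ball c q, Lf z ≠ 0 := fun z hz' => hz z (hσ1.trans (hLf t z hz').2)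
  -- primitives
  have hd1 : DifferentiableOn ℂ (fun z => deriv Lf z / Lf z) (Metric.ball c q) := by
    refine DifferentiableOn.div ?_ Lf_differentiable.differentiableOn hne
    intro s _
    exact (Lf_differentiable.analyticAt s).deriv.differentiableAt.differentiableWithinAt
  have hd2 : DifferentiableOn ℂ (LSeries ee) (Metric.ball c q) :=
    ee_diff.mono fun z hz' => hσ2.trans (hLf t z hz').2
  obtain ⟨ℓ, hℓc, hℓ⟩ := hd1.isExactOn_ball.with_val_at c (Complex.log (Lf c))
  obtain ⟨e, hec, he⟩ := hd2.isExactOn_ball.with_val_at c (P c - Complex.log (Lf c))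
  have hexp := exp_prim hq0 hne hℓc hℓ
  refine ⟨fun z => ℓ z + e z, ?_, ?_, ?_⟩
  · intro z hz'
    exact ((hℓ z hz').add (he z hz')).differentiableAt.differentiableWithinAt
  · -- equality with `P` near `c`
    set ρ : ℝ := min q (s0 - 1) with hρ
    have hρ0 : 0 < ρ := lt_min hq0 (by linarith)
    have hsub : Metric.ball c ρ ⊆ Metric.ball c q := Metric.ball_subset_ball (min_le_left _ _)
    have hre : ∀ z ∈ Metric.ball c ρ, 1 < z.re := by
      intro z hz'
      rw [Metric.mem_ball, dist_eq_norm] at hz'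
      have h2 : |(z - c).re| ≤ ‖z - c‖ := Complex.abs_re_le_norm _
      rw [Complex.sub_re, hcre] at h2
      have := (abs_lt.1 (h2.trans_lt hz')).1
      have h3 : ρ ≤ s0 - 1 := min_le_right _ _
      linarith
    have hopen : IsOpen {s : ℂ | 1 < s.re} := isOpen_lt continuous_const Complex.continuous_re
    have hder : ∀ z ∈ Metric.ball c ρ, HasDerivAt (fun z => ℓ z + e z - P z) 0 z := by
      intro z hz'
      have h2 : HasDerivAt P (deriv P z) z :=
        ((P_differentiable z (hre z hz')).differentiableAt (hopen.mem_nhds (hre z hz'))).hasDerivAt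
      have h3 := ((hℓ z (hsub hz')).add (he z (hsub hz'))).sub h2
      rw [P_deriv_ee (hre z hz'), sub_self] at h3
      exact h3
    filter_upwards [Metric.ball_mem_nhds c hρ0] with z hz'
    have h4 : ℓ z + e z - P z = ℓ c + e c - P c := by
      apply (convex_ball c ρ).is_const_of_fderivWithin_eq_zero (𝕜 := ℂ) (f := fun z => ℓ z + e z - P z)
        (fun w hw => (hder w hw).differentiableAt.differentiableWithinAt) ?_ hz'
        (Metric.mem_ball_self hρ0)
      intro w hw
      have := (hder w hw).hasFDerivAt.hasFDerivWithinAt (s := Metric.ball c ρ)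
      rw [this.fderivWithin (Metric.isOpen_ball.uniqueDiffWithinAt hw)]
      ext
      simp
    rw [hℓc, hec] at h4
    have h5 : ℓ z + e z - P z = 0 := by rw [h4]; ring
    exact sub_eq_zero.1 h5
  · -- the bound
    intro z hz'
    rw [Metric.mem_closedBall, dist_eq_norm] at hz'
    have hzb : z ∈ Metric.ball c q := by
      rw [Metric.mem_ball, dist_eq_norm]; exact hz'.trans_lt hrq
    -- Borel-Caratheodory
    set M : ℝ := Real.log C1 + Real.log (1 + |t|) with hM
    have hlt : 0 ≤ Real.log (1 + |t|) := Real.log_nonneg (by linarith [abs_nonneg t])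
    have hM0 : 0 < M := by linarith
    have hb : ‖ℓ z‖ ≤ K1 * M + Cl * K2 := by
      have h2 := Complex.borelCaratheodory (f := fun w => ℓ (c + w)) (M := M) (R := q) (z := z - c)
        hM0 ?_ ?_ hq0 ?_
      · simp only [add_sub_cancel, add_zero] at h2
        refine h2.trans (add_le_add ?_ ?_)
        · rw [hK1, div_mul_eq_mul_div, div_le_div_iff₀ (by linarith) hqr]
          have h3 : 0 ≤ ‖z - c‖ := norm_nonneg _
          have h4 : 2 * M * ‖z - c‖ ≤ 2 * M * r := by gcongr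
          have h5 : q - r ≤ q - ‖z - c‖ := by linarith
          calc 2 * M * ‖z - c‖ * (q - r) ≤ 2 * M * r * (q - ‖z - c‖) := by gcongr
            _ = 2 * r * M * (q - ‖z - c‖) := by ring
        · rw [hK2, mul_div_assoc]
          have h6 : ‖ℓ c‖ ≤ Cl := by rw [hℓc]; exact hl t
          have h7 : (q + ‖z - c‖) / (q - ‖z - c‖) ≤ (q + r) / (q - r) := by
            gcongr
          have h8 : 0 ≤ (q + ‖z - c‖) / (q - ‖z - c‖) := by
            apply div_nonneg _ (by linarith)
            have := norm_nonneg (z - c)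
            linarith
          exact mul_le_mul h6 h7 h8 hCl.le
      · intro w hw
        have h3 : c + w ∈ Metric.ball c q := by
          rw [Metric.mem_ball, dist_eq_norm, add_sub_cancel_left]
          simpa using hw
        exact ((hℓ _ h3).comp_const_add c w).differentiableAt.differentiableWithinAt
      · intro w hw
        have h3 : c + w ∈ Metric.ball c q := by
          rw [Metric.mem_ball, dist_eq_norm, add_sub_cancel_left]
          simpa using hw
        have h4 := (hLf t _ h3).1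
        rw [← hexp _ h3, Complex.norm_exp] at h4
        have h5 : 0 < 1 + |t| := by linarith [abs_nonneg t]
        have h6 : (ℓ (c + w)).re ≤ Real.log (C1 * (1 + |t|)) := by
          rw [Real.le_log_iff_exp_le (by positivity)]
          exact h4
        rw [Real.log_mul (by linarith) h5.ne'] at h6
        exact h6
      · rw [mem_ball_zero_iff]
        exact hz'.trans_lt hrq
    -- the other part
    have he1 : ‖e z - e c‖ ≤ CE * ‖z - c‖ := by
      apply (convex_ball c q).norm_image_sub_le_of_norm_hasDerivWithin_le (𝕜 := ℂ)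
        (f' := fun w => LSeries ee w) (fun w hw => (he w hw).hasDerivWithinAt) ?_ hcm hzb
      intro w hw
      exact hE w (hLf t w hw).2.le
    have he2 : ‖e z‖ ≤ CP + Cl + CE * r := by
      have h2 : ‖e c‖ ≤ CP + Cl := by
        rw [hec]
        refine (norm_sub_le _ _).trans (add_le_add ?_ (hl t))
        exact hP c hcre.ge
      calc ‖e z‖ = ‖(e z - e c) + e c‖ := by rw [sub_add_cancel]
        _ ≤ ‖e z - e c‖ + ‖e c‖ := norm_add_le _ _
        _ ≤ CE * r + (CP + Cl) := add_le_add (he1.trans (by gcongr)) h2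
        _ = _ := by ring
    -- assembly
    have hx1 : 1 ≤ (1 + |t|) ^ δ := Real.one_le_rpow (by linarith [abs_nonneg t]) hδ.le
    have hx2 : Real.log (1 + |t|) ≤ (1 + |t|) ^ δ / δ :=
      Real.log_le_rpow_div (by linarith [abs_nonneg t]) hδ
    set x : ℝ := (1 + |t|) ^ δ with hx
    have hx3 : M ≤ (Real.log C1 + 1 / δ) * x := by
      rw [hM, add_mul]
      have : Real.log C1 * 1 ≤ Real.log C1 * x := by gcongr
      have e3 : 1 / δ * x = x / δ := by ring
      rw [e3]
      linarith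
    calc ‖ℓ z + e z‖ ≤ ‖ℓ z‖ + ‖e z‖ := norm_add_le _ _
      _ ≤ (K1 * M + Cl * K2) + (CP + Cl + CE * r) := add_le_add hb he2
      _ ≤ (K1 * ((Real.log C1 + 1 / δ) * x) + Cl * K2 * x) + (CP + Cl + CE * r) * x := by
          have i1 : K1 * M ≤ K1 * ((Real.log C1 + 1 / δ) * x) := by gcongr
          have i2 : Cl * K2 * 1 ≤ Cl * K2 * x := by gcongr
          have i3 : (CP + Cl + CE * r) * 1 ≤ (CP + Cl + CE * r) * x := by gcongr
          linarith
      _ ≤ (K1 * (Real.log C1 + 1 / δ) + Cl * K2 + CP + Cl + CE * r + 1) * x := by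
          have : 0 ≤ x := by linarith
          nlinarith

end Pool.OMH
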