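import Pool.Agent.OMH.Grow
import Pool.Agent.OMH.Ploc

/-!
# OMH COEF: Cauchy estimates on the line `Re s = s0`, uniform in the imaginary part

`c = s0 + t I`. Choose `0 < δ <= 1/4` with `1/2 + 2δ <= s0 - r`. By `P_local` (with `δ/2`) the
function `G z = Lf z * g z / z` is holomorphic on `ball c q`, equal to `F z / z` near `c` (`F_eq`),
and on `closedBall c r`: `|G z| <= C |z|^(1/2-δ) C' (1+|t|)^(δ/2) / |z|
<= C'' (1+|t|)^(-1/2-δ/2)`, because `|z| >= c0 (1 + |t|)`. Then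
`Complex.norm_iteratedDeriv_le_of_forall_mem_sphere_norm_le` on the sphere of radius `r`.
-/

set_option autoImplicit false

open Complex Finset Filter Topology MeasureTheory Pool.OMG

namespace Pool.OMH

private lemma coef_re {s0 r t : ℝ} {z : ℂ} (hz : z ∈ Metric.closedBall ((s0 : ℂ) + t * I) r) :
    s0 - r ≤ z.re ∧ |t| - r ≤ |z.im| := by
  have h : ‖z - ((s0 : ℂ) + t * I)‖ ≤ r := by
    simpa [dist_eq_norm] using Metric.mem_closedBall.mp hz
  have hre : |(z - ((s0 : ℂ) + t * I)).re| ≤ r := (abs_re_le_norm _).trans h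
  have him : |(z - ((s0 : ℂ) + t * I)).im| ≤ r := (abs_im_le_norm _).trans h
  have e1 : (z - ((s0 : ℂ) + t * I)).re = z.re - s0 := by simp
  have e2 : (z - ((s0 : ℂ) + t * I)).im = z.im - t := by simp
  rw [e1] at hre
  rw [e2] at him
  refine ⟨by linarith [(abs_le.mp hre).1], ?_⟩
  have h3 : |t| - |z.im| ≤ |t - z.im| := abs_sub_abs_le_abs_sub t z.im
  rw [abs_sub_comm] at h3
  linarith

/-- `|z| >= c0 (1 + |t|)` on the closed ball. -/
private lemma coef_low {s0 r : ℝ} (hr : 0 < r) (ha : 0 < s0 - r) :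
    ∃ c0 : ℝ, 0 < c0 ∧ ∀ (t : ℝ) (z : ℂ), z ∈ Metric.closedBall ((s0 : ℂ) + t * I) r →
      c0 * (1 + |t|) ≤ ‖z‖ := by
  set a : ℝ := s0 - r with ha'
  have hD : 0 < 1 + (1 + r) / a := by positivity
  refine ⟨(1 + (1 + r) / a)⁻¹, inv_pos.mpr hD, fun t z hz => ?_⟩
  obtain ⟨h1, h2⟩ := coef_re hz
  have h3 : a ≤ ‖z‖ := h1.trans ((le_abs_self _).trans (abs_re_le_norm z))
  have h4 : |z.im| ≤ ‖z‖ := abs_im_le_norm z
  have h5 : 1 + |t| ≤ ‖z‖ + (1 + r) := by linarith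
  have h6 : (1 + r) ≤ (1 + r) / a * ‖z‖ := by
    rw [div_mul_eq_mul_div, le_div_iff₀ ha]
    exact mul_le_mul_of_nonneg_left h3 (by linarith)
  rw [inv_mul_le_iff₀ hD]
  nlinarith

theorem coef_bound {Θ : ℝ} (hΘ : 1 / 2 ≤ Θ) (hz : ∀ s : ℂ, Θ < s.re → Lf s ≠ 0) {s0 r : ℝ}
    (h1 : 1 < s0) (hr : 0 < r) (hr2 : r < s0 - Θ) :
    ∃ C κ : ℝ, 0 < C ∧ 1 / 2 < κ ∧ ∀ (k : ℕ) (t : ℝ),
      ‖iteratedDeriv k (fun s => F s / s) ((s0 : ℂ) + t * I)‖ ≤
        C * (k.factorial : ℝ) / r ^ k * (1 + |t|) ^ (-κ) := by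
  obtain ⟨δ, hδ0, hδ1, hδ2⟩ : ∃ δ : ℝ, 0 < δ ∧ δ ≤ 1 / 4 ∧ 1 / 2 + 2 * δ ≤ s0 - r := by
    refine ⟨min (1 / 4) ((s0 - r - 1 / 2) / 2), lt_min (by norm_num) (by linarith),
      min_le_left _ _, ?_⟩
    have := min_le_right (1 / 4) ((s0 - r - 1 / 2) / 2)
    linarith
  obtain ⟨C1, hC1, hL⟩ := Lf_growth hδ0 hδ1
  obtain ⟨C2, q, hC2, hrq, hq, hP⟩ := P_local hΘ hz h1 hr hr2 (half_pos hδ0)
  have ha : 0 < s0 - r := by linarith
  obtain ⟨c0, hc0, hlow⟩ := coef_low hr ha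
  refine ⟨C1 * C2 * c0 ^ (-(1 / 2 + δ)), 1 / 2 + δ / 2, by positivity, by linarith,
    fun k t => ?_⟩
  obtain ⟨g, hg, hgP, hgb⟩ := hP t
  set c : ℂ := (s0 : ℂ) + t * I with hc
  set G : ℂ → ℂ := fun z => Lf z * g z / z with hG
  -- near the centre
  have hev : (fun s => F s / s) =ᶠ[𝓝 c] G := by
    have hre : ∀ᶠ s in 𝓝 c, 1 < s.re := by
      have hcr : 1 < c.re := by simp [hc, h1]
      exact (isOpen_lt continuous_const Complex.continuous_re).mem_nhds hcr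
    filter_upwards [hre, hgP] with s hs hgs
    simp only [hG]
    rw [F_eq hs, hgs]
  rw [(hev.iteratedDeriv k).eq_of_nhds]
  -- holomorphy
  have hne : ∀ z ∈ Metric.ball c q, z ≠ 0 := by
    intro z hz' h0
    have h2 := (coef_re (Metric.ball_subset_closedBall hz')).1
    rw [h0] at h2
    simp only [zero_re] at h2
    linarith
  have hGd : DifferentiableOn ℂ G (Metric.ball c q) :=
    ((Lf_differentiable.differentiableOn).mul hg).div differentiableOn_id hne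
  have hcl : closure (Metric.ball c r) ⊆ Metric.ball c q :=
    Metric.closure_ball_subset_closedBall.trans (Metric.closedBall_subset_ball hrq)
  have hGc : DiffContOnCl ℂ G (Metric.ball c r) := (hGd.mono hcl).diffContOnCl
  -- the bound
  have ht : 0 < 1 + |t| := by positivity
  have hb : ∀ z ∈ Metric.sphere c r, ‖G z‖ ≤
      C1 * C2 * c0 ^ (-(1 / 2 + δ)) * (1 + |t|) ^ (-(1 / 2 + δ / 2)) := by
    intro z hz'
    have hzc : z ∈ Metric.closedBall c r := Metric.sphere_subset_closedBall hz'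
    have h2 := (coef_re hzc).1
    have h3 : 1 / 2 + 2 * δ ≤ z.re := hδ2.trans h2
    have h4 : 0 < ‖z‖ := lt_of_lt_of_le (by linarith) ((le_abs_self _).trans (abs_re_le_norm z))
    have h5 := hlow t z hzc
    have h6 : ‖G z‖ = ‖Lf z‖ * ‖g z‖ / ‖z‖ := by
      simp only [hG]
      rw [norm_div, norm_mul]
    rw [h6]
    have h7 : ‖Lf z‖ * ‖g z‖ ≤ (C1 * ‖z‖ ^ (1 / 2 - δ)) * (C2 * (1 + |t|) ^ (δ / 2)) :=
      mul_le_mul (hL z h3) (hgb z hzc) (norm_nonneg _) (by positivity)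
    calc ‖Lf z‖ * ‖g z‖ / ‖z‖
        ≤ (C1 * ‖z‖ ^ (1 / 2 - δ)) * (C2 * (1 + |t|) ^ (δ / 2)) / ‖z‖ :=
          div_le_div_of_nonneg_right h7 h4.le
      _ = C1 * C2 * ‖z‖ ^ (-(1 / 2 + δ)) * (1 + |t|) ^ (δ / 2) := by
          have e : ‖z‖ ^ (-(1 / 2 + δ)) = ‖z‖ ^ (1 / 2 - δ) / ‖z‖ := by
            rw [← Real.rpow_sub_one h4.ne']
            congr 1
            ring
          rw [e]
          ring
      _ ≤ C1 * C2 * (c0 * (1 + |t|)) ^ (-(1 / 2 + δ)) * (1 + |t|) ^ (δ / 2) := by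
          have h8 : ‖z‖ ^ (-(1 / 2 + δ)) ≤ (c0 * (1 + |t|)) ^ (-(1 / 2 + δ)) :=
            Real.rpow_le_rpow_of_nonpos (by positivity) h5 (by linarith)
          gcongr
      _ = C1 * C2 * c0 ^ (-(1 / 2 + δ)) * (1 + |t|) ^ (-(1 / 2 + δ / 2)) := by
          rw [Real.mul_rpow hc0.le ht.le]
          have e : (1 + |t|) ^ (-(1 / 2 + δ / 2)) =
              (1 + |t|) ^ (-(1 / 2 + δ)) * (1 + |t|) ^ (δ / 2) := by
            rw [← Real.rpow_add ht]
            congr 1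
            ring
          rw [e]
          ring
  have hfin := Complex.norm_iteratedDeriv_le_of_forall_mem_sphere_norm_le k hr hGc hb
  calc ‖iteratedDeriv k G c‖ ≤ _ := hfin
    _ = C1 * C2 * c0 ^ (-(1 / 2 + δ)) * (k.factorial : ℝ) / r ^ k *
        (1 + |t|) ^ (-(1 / 2 + δ / 2)) := by ring

end Pool.OMH
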