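import Pool.Agent.OMH.Meas
import Pool.Agent.OMG.Fin

/-!
# OMH FIN: counting integers

For `0 < c < Lhalf` let `c' = (c + Lhalf)/2` and `Y = log X/(1 + ε/4)`. The set `E` of `meas` (with
`c'` and `ε/4`) lies inside the union of the intervals `[log n, log (n+1))` over the good integers
`n <= X` with `n >= e^Y - 1`, each of length `<= 1/n <= 2 e^-Y`, so there are at least
`e^((1-ε/4) Y)/2 >= X^(1-ε)` good integers.
-/

set_option autoImplicit false

open Complex Finset Filter Topology MeasureTheory Pool.OMG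

namespace Pool.OMH

/-- a real point of the bias set gives a good integer -/
private lemma point {c c' y : ℝ} (hc : 0 < c) (hcc : c < c') (h3 : 3 ≤ (⌊Real.exp y⌋₊ : ℝ))
    (hK : c' / (c' - c) ≤ finH ⌊Real.exp y⌋₊)
    (h : A (Real.exp y) < -c' * Real.exp (y / 2) / y) :
    c * √(⌊Real.exp y⌋₊ : ℝ) / Real.log ⌊Real.exp y⌋₊ <
      S 3 ⌊Real.exp y⌋₊ - S 1 ⌊Real.exp y⌋₊ := by
  have hf1 : (⌊Real.exp y⌋₊ : ℝ) ≤ Real.exp y := Nat.floor_le (Real.exp_pos y).le
  have hf2 : Real.exp y < (⌊Real.exp y⌋₊ : ℝ) + 1 := Nat.lt_floor_add_one _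
  have hcomp : |finH (Real.exp y) - finH ⌊Real.exp y⌋₊| ≤ 1 := by
    apply fin_comp h3 (by linarith)
    rw [abs_le]
    constructor <;> linarith
  have hfin : Real.exp (y / 2) / y = finH (Real.exp y) := by
    unfold finH
    rw [Real.log_exp, Real.exp_half]
  rw [A_floor, mul_div_assoc, hfin] at h
  set n := ⌊Real.exp y⌋₊ with hn
  have h1 : finH n - 1 ≤ finH (Real.exp y) := by
    have := (abs_le.1 hcomp).1
    linarith
  have hA : A (n : ℝ) = S 1 n - S 3 n := rfl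
  rw [hA] at h
  rw [div_le_iff₀ (by linarith)] at hK
  have e1 : c * √(n : ℝ) / Real.log n = c * finH n := by
    unfold finH
    ring
  rw [e1]
  have h2 : c' * (finH n - 1) ≤ c' * finH (Real.exp y) :=
    mul_le_mul_of_nonneg_left h1 (by linarith)
  nlinarith

private lemma main_pos {c ε : ℝ} (hc : 0 < c) (hcL : c < Lhalf) (hε : 0 < ε) (hε1 : ε ≤ 1) :
    ∃ X₀ : ℝ, ∀ X : ℝ, X₀ ≤ X →
    X ^ (1 - ε) ≤ (((Icc 1 ⌊X⌋₊).filter (fun n : ℕ =>
      c * √(n : ℝ) / Real.log n < S 3 n - S 1 n)).card : ℝ) := by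
  set c' := (c + Lhalf) / 2 with hc'
  have hcc : c < c' := by rw [hc']; linarith
  have hcL' : c' < Lhalf := by rw [hc']; linarith
  obtain ⟨Y0, hY0⟩ := meas (c := c') (ε := ε / 4) (by linarith) hcL' (by linarith) (by linarith)
  obtain ⟨M, hM3, hM⟩ := fin_large (c' / (c' - c)) 1
    (div_nonneg (by linarith) (by linarith)) one_pos
  refine ⟨Real.exp ((1 + ε / 4) * max Y0 (max (Real.log (M + 1)) (2 / ε))), ?_⟩
  intro X hX
  have hX0 : 0 < X := lt_of_lt_of_le (Real.exp_pos _) hX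
  have he : 0 < 1 + ε / 4 := by linarith
  set Y := Real.log X / (1 + ε / 4) with hY
  have hYX : (1 + ε / 4) * Y = Real.log X := by rw [hY]; field_simp
  have hYm : max Y0 (max (Real.log (M + 1)) (2 / ε)) ≤ Y := by
    rw [hY, le_div_iff₀ he, Real.le_log_iff_exp_le hX0, mul_comm]
    exact hX
  have hY1 : Y0 ≤ Y := (le_max_left _ _).trans hYm
  have hY2 : Real.log (M + 1) ≤ Y := (le_max_left _ _).trans ((le_max_right _ _).trans hYm)
  have hY3 : 2 / ε ≤ Y := (le_max_right _ _).trans ((le_max_right _ _).trans hYm)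
  have hMe : M + 1 ≤ Real.exp Y := by
    rwa [← Real.log_le_iff_le_exp (by linarith)]
  have hmeas := hY0 Y hY1
  set G := (Icc 1 ⌊X⌋₊).filter (fun n : ℕ => c * √(n : ℝ) / Real.log n < S 3 n - S 1 n) with hG
  set G' := G.filter (fun n : ℕ => Real.exp Y - 1 ≤ (n : ℝ)) with hG'
  set E : Set ℝ := {y : ℝ | Y ≤ y ∧ y ≤ (1 + ε / 4) * Y ∧
        A (Real.exp y) < -c' * Real.exp (y / 2) / y} with hE
  have hsub : E ⊆ ⋃ n ∈ G', Set.Ico (Real.log (n : ℝ)) (Real.log ((n : ℝ) + 1)) := by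
    rintro y ⟨h1, h2, h3⟩
    have hf1 : (⌊Real.exp y⌋₊ : ℝ) ≤ Real.exp y := Nat.floor_le (Real.exp_pos y).le
    have hf2 : Real.exp y < (⌊Real.exp y⌋₊ : ℝ) + 1 := Nat.lt_floor_add_one _
    have hYy : Real.exp Y ≤ Real.exp y := Real.exp_le_exp.2 h1
    have hyX : Real.exp y ≤ X := by
      rw [← Real.le_log_iff_exp_le hX0, ← hYX]
      exact h2
    have hnM : M ≤ (⌊Real.exp y⌋₊ : ℝ) := by linarith
    have hgood := point hc hcc (by linarith) (hM _ hnM).1 h3
    rw [Set.mem_iUnion₂]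
    refine ⟨⌊Real.exp y⌋₊, ?_, ?_, ?_⟩
    · rw [hG', Finset.mem_filter, hG, Finset.mem_filter, Finset.mem_Icc]
      refine ⟨⟨⟨?_, Nat.floor_le_floor hyX⟩, hgood⟩, by linarith⟩
      have : (1 : ℝ) ≤ (⌊Real.exp y⌋₊ : ℝ) := by linarith
      exact_mod_cast this
    · rw [Real.log_le_iff_le_exp (by linarith)]
      exact hf1
    · rw [Real.lt_log_iff_exp_lt (by linarith)]
      exact hf2
  have hlen : ∀ n ∈ G', volume.real (Set.Ico (Real.log (n : ℝ)) (Real.log ((n : ℝ) + 1))) ≤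
      2 * Real.exp (-Y) := by
    intro n hn
    have hn1 : Real.exp Y - 1 ≤ (n : ℝ) := (Finset.mem_filter.1 hn).2
    have hn0 : (0 : ℝ) < n := by linarith
    have hlog : Real.log ((n : ℝ) + 1) - Real.log n ≤ 1 / n := by
      rw [← Real.log_div (by linarith) (by linarith)]
      have h3 := Real.log_le_sub_one_of_pos (x := ((n : ℝ) + 1) / n) (div_pos (by linarith) hn0)
      refine h3.trans ?_
      rw [div_sub_one hn0.ne']
      exact div_le_div_of_nonneg_right (by linarith) hn0.le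
    rw [Real.volume_real_Ico_of_le (Real.log_le_log hn0 (by linarith))]
    refine hlog.trans ?_
    have h4 : Real.exp Y / 2 ≤ (n : ℝ) := by linarith
    have h5 : 1 / (n : ℝ) ≤ 1 / (Real.exp Y / 2) :=
      one_div_le_one_div_of_le (by positivity) h4
    refine h5.trans (le_of_eq ?_)
    rw [Real.exp_neg]
    field_simp
  have hfinU : volume (⋃ n ∈ G', Set.Ico (Real.log (n : ℝ)) (Real.log ((n : ℝ) + 1))) ≠ ⊤ := by
    refine ne_top_of_le_ne_top ?_ (measure_biUnion_finset_le _ _)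
    refine (ENNReal.sum_lt_top.2 fun n _ => ?_).ne
    rw [Real.volume_Ico]
    exact ENNReal.ofReal_lt_top
  have hEle : volume.real E ≤ (G'.card : ℝ) * (2 * Real.exp (-Y)) := by
    refine (measureReal_mono hsub hfinU).trans ?_
    refine (measureReal_biUnion_finset_le _ _).trans ?_
    refine (Finset.sum_le_sum hlen).trans (le_of_eq ?_)
    rw [Finset.sum_const, nsmul_eq_mul]
  have hcard : (G'.card : ℝ) ≤ G.card := by
    exact_mod_cast Finset.card_le_card (Finset.filter_subset _ _)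
  have hfinal : Real.exp (-(ε / 4) * Y) ≤ (G.card : ℝ) * (2 * Real.exp (-Y)) := by
    refine (hmeas.trans hEle).trans ?_
    exact mul_le_mul_of_nonneg_right hcard (by positivity)
  -- numbers
  have hεY : 2 ≤ ε * Y := by
    rw [div_le_iff₀ hε] at hY3
    linarith
  have h2e : (2 : ℝ) ≤ Real.exp (ε / 2 * Y) := by
    have := Real.add_one_le_exp (ε / 2 * Y)
    linarith
  have hYpos : 0 < Y := lt_of_lt_of_le (by positivity) hY3
  have hXe : X ^ (1 - ε) = Real.exp ((1 + ε / 4) * Y * (1 - ε)) := by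
    rw [Real.rpow_def_of_pos hX0, hYX]
  rw [hXe]
  have h6 : Real.exp ((1 + ε / 4) * Y * (1 - ε)) * (2 * Real.exp (-Y)) ≤
      Real.exp (-(ε / 4) * Y) := by
    calc Real.exp ((1 + ε / 4) * Y * (1 - ε)) * (2 * Real.exp (-Y))
        ≤ Real.exp ((1 + ε / 4) * Y * (1 - ε)) * (Real.exp (ε / 2 * Y) * Real.exp (-Y)) := by
          gcongr
      _ = Real.exp ((1 + ε / 4) * Y * (1 - ε) + (ε / 2 * Y + -Y)) := by
          rw [Real.exp_add, Real.exp_add]
      _ ≤ Real.exp (-(ε / 4) * Y) := by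
          apply Real.exp_le_exp.2
          nlinarith [mul_pos (mul_pos hε hε) hYpos]
  have h7 : 0 < 2 * Real.exp (-Y) := by positivity
  exact le_of_mul_le_mul_right (h6.trans hfinal) h7

theorem main {c ε : ℝ} (hcL : c < Lhalf) (hε : 0 < ε) : ∃ X₀ : ℝ, ∀ X : ℝ, X₀ ≤ X →
    X ^ (1 - ε) ≤ (((Icc 1 ⌊X⌋₊).filter (fun n : ℕ =>
      c * √(n : ℝ) / Real.log n < S 3 n - S 1 n)).card : ℝ) := by
  have hL := Lhalf_pos
  have hm : max c 0 < Lhalf := max_lt hcL hL
  have hc1 : max c 0 < (max c 0 + Lhalf) / 2 := by linarith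
  have hc2 : (max c 0 + Lhalf) / 2 < Lhalf := by linarith
  have hc3 : c ≤ (max c 0 + Lhalf) / 2 := (le_max_left c 0).trans hc1.le
  have hc4 : 0 < (max c 0 + Lhalf) / 2 := lt_of_le_of_lt (le_max_right c 0) hc1
  obtain ⟨X0, hX0⟩ := main_pos hc4 hc2 (lt_min hε one_pos) (min_le_right ε 1)
  refine ⟨max X0 1, fun X hX => ?_⟩
  have hX1 : X0 ≤ X := (le_max_left _ _).trans hX
  have hX2 : 1 ≤ X := (le_max_right _ _).trans hX
  have h1 : X ^ (1 - ε) ≤ X ^ (1 - min ε 1) := by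
    apply Real.rpow_le_rpow_of_exponent_le hX2
    have := min_le_left ε 1
    linarith
  refine h1.trans ((hX0 X hX1).trans ?_)
  have hsub : ((Icc 1 ⌊X⌋₊).filter (fun n : ℕ =>
      (max c 0 + Lhalf) / 2 * √(n : ℝ) / Real.log n < S 3 n - S 1 n)) ⊆
      ((Icc 1 ⌊X⌋₊).filter (fun n : ℕ => c * √(n : ℝ) / Real.log n < S 3 n - S 1 n)) := by
    intro n hn
    rw [Finset.mem_filter] at hn ⊢
    refine ⟨hn.1, lt_of_le_of_lt ?_ hn.2⟩
    have hn1 : (1 : ℝ) ≤ n := by
      have := (Finset.mem_Icc.1 hn.1).1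
      exact_mod_cast this
    have hlog : 0 ≤ Real.log (n : ℝ) := Real.log_nonneg hn1
    apply div_le_div_of_nonneg_right _ hlog
    exact mul_le_mul_of_nonneg_right hc3 (Real.sqrt_nonneg _)
  exact_mod_cast Finset.card_le_card hsub

end Pool.OMH
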