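import Pool.Agent.OMG.Int

/-!
# OMH ITER: derivatives of the Laplace transform on the line `Re s = s0`

On the half plane `Re s > 1` differentiate under the integral sign
(`hasDerivAt_integral_of_dominated_loc_of_deriv_le`) and induct on `k`.
-/

set_option autoImplicit false

open Complex Finset Filter Topology MeasureTheory Pool.OMG

namespace Pool.OMH

private theorem meas_aux (s : ℂ) (k : ℕ) :
    Measurable fun y : ℝ => (A (Real.exp y) : ℂ) * Complex.exp (-s * y) * (y : ℂ) ^ k := by
  refine ((Complex.measurable_ofReal.comp (A_measurable.comp Real.measurable_exp)).mul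
    (Complex.measurable_exp.comp (measurable_const.mul Complex.measurable_ofReal))).mul
    (Complex.measurable_ofReal.pow_const k)

private theorem norm_aux {s : ℂ} {b y : ℝ} (hy : 0 < y) (hb : b ≤ s.re) (k : ℕ) :
    ‖(A (Real.exp y) : ℂ) * Complex.exp (-s * y) * (y : ℂ) ^ k‖ ≤
      |A (Real.exp y)| * Real.exp (-b * y) * y ^ k := by
  rw [norm_mul, norm_mul, norm_pow, Complex.norm_real, Complex.norm_real, Complex.norm_exp,
    Real.norm_eq_abs, Real.norm_eq_abs, abs_of_pos hy]
  have h : (-s * (y : ℂ)).re = -s.re * y := by simp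
  rw [h]
  gcongr

private theorem dom_int {b : ℝ} (hb : 1 < b) (k : ℕ) :
    IntegrableOn (fun y : ℝ => |A (Real.exp y)| * Real.exp (-b * y) * y ^ k) (Set.Ioi 0) := by
  have h := ((J_integrable hb k).norm).const_mul (k.factorial : ℝ)
  refine IntegrableOn.congr_fun h ?_ measurableSet_Ioi
  intro y hy
  have hy0 : 0 < y := hy
  have hf : (k.factorial : ℝ) ≠ 0 := by exact_mod_cast k.factorial_ne_zero
  simp only [Real.norm_eq_abs, abs_div, abs_mul, Real.abs_exp, abs_pow, abs_of_pos hy0,
    Nat.abs_cast]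
  field_simp

private noncomputable def G (k : ℕ) (s : ℂ) : ℂ :=
  ∫ y in Set.Ioi (0 : ℝ), (A (Real.exp y) : ℂ) * Complex.exp (-s * y) * (y : ℂ) ^ k

private theorem G_deriv (k : ℕ) {s : ℂ} (hs : 1 < s.re) : HasDerivAt (G k) (-G (k + 1) s) s := by
  obtain ⟨b, hb1, hb2⟩ := exists_between hs
  have hopen : {z : ℂ | b < z.re} ∈ 𝓝 s :=
    (isOpen_lt continuous_const Complex.continuous_re).mem_nhds hb2
  have key := hasDerivAt_integral_of_dominated_loc_of_deriv_le (𝕜 := ℂ)
    (μ := volume.restrict (Set.Ioi (0 : ℝ)))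
    (F := fun (z : ℂ) (y : ℝ) => (A (Real.exp y) : ℂ) * Complex.exp (-z * y) * (y : ℂ) ^ k)
    (F' := fun (z : ℂ) (y : ℝ) =>
      -((A (Real.exp y) : ℂ) * Complex.exp (-z * y) * (y : ℂ) ^ (k + 1)))
    (bound := fun y : ℝ => |A (Real.exp y)| * Real.exp (-b * y) * y ^ (k + 1))
    (x₀ := s) (s := {z : ℂ | b < z.re}) hopen
    (Filter.Eventually.of_forall fun z => (meas_aux z k).aestronglyMeasurable)
    (Integrable.mono' (dom_int hb1 k) (meas_aux s k).aestronglyMeasurable
      ((ae_restrict_iff' measurableSet_Ioi).2 (Filter.Eventually.of_forall fun y hy =>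
        norm_aux hy hb2.le k)))
    (meas_aux s (k + 1)).neg.aestronglyMeasurable
    ((ae_restrict_iff' measurableSet_Ioi).2 (Filter.Eventually.of_forall fun y hy z hz => by
      rw [norm_neg]
      exact norm_aux hy (le_of_lt hz) (k + 1)))
    (dom_int hb1 (k + 1))
    (Filter.Eventually.of_forall fun y z _ => by
      have h1 : HasDerivAt (fun w : ℂ => -w * (y : ℂ)) (-(y : ℂ)) z := by
        simpa using ((hasDerivAt_id z).neg).mul_const (y : ℂ)
      have h2 := ((h1.cexp.const_mul (A (Real.exp y) : ℂ))).mul_const ((y : ℂ) ^ k)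
      refine h2.congr_deriv ?_
      ring)
  have h3 := key.2
  rw [integral_neg] at h3
  exact h3

private theorem iter_aux (k : ℕ) {s : ℂ} (hs : 1 < s.re) :
    iteratedDeriv k (fun s => F s / s) s = (-1) ^ k * G k s := by
  induction k generalizing s with
  | zero =>
    rw [iteratedDeriv_zero, pow_zero, one_mul, F_div_eq_integral hs]
    unfold G
    simp
  | succ k ih =>
    rw [iteratedDeriv_succ]
    have hev : iteratedDeriv k (fun s => F s / s) =ᶠ[𝓝 s] fun z => (-1) ^ k * G k z := by
      filter_upwards [(isOpen_lt continuous_const Complex.continuous_re).mem_nhds hs] with z hz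
      exact ih hz
    rw [hev.deriv_eq, ((G_deriv k hs).const_mul _).deriv]
    ring

theorem F_iter {s0 : ℝ} (h1 : 1 < s0) (k : ℕ) (t : ℝ) :
    iteratedDeriv k (fun s => F s / s) ((s0 : ℂ) + t * I) = (-1) ^ k *
      ∫ y in Set.Ioi (0 : ℝ), (A (Real.exp y) : ℂ) * Complex.exp (-((s0 : ℂ) + t * I) * y) *
        (y : ℂ) ^ k :=
  iter_aux k (by simpa using h1)

end Pool.OMH
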