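import Pool.Agent.OMG.Osc

/-!
# OMH LOW: lower bound for `-J_k` with the amplitude of the nearest zero

`lowB`: copy `caseB_asy` (file `Pool.Agent.OMG.CaseB`) with the extra output that `R0` is the
distance from `s0` to the zero `ρ`, so `R0 <= dist z s0` for every zero `z` of `Lf` (by `CaseB`);
then `cos_gap` as in `osc` (file `Osc`).

`low`: if `Θ = 1/2`, `cases_exist` gives a centre of Case A (a Case B centre has a zero with real
part `> 1/2`), `R = s0 - 1/2`, `m = 1`, `N = 0` (`osc_caseA_tendsto`, private in `Osc`, copy it).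
Otherwise take a zero `ρ` with `Re ρ > Θ - η/2`, `Re ρ > 1/2`; for large `s0`:
`dist ρ s0 <= s0 - Θ + η` and `dist ρ s0 < s0 - 1/2`; so Case A is impossible and in Case B
`R0 <= dist ρ s0`; the term `c/k (s0-1/2)^(-k)` is negligible as `R0 < s0 - 1/2`.
-/

set_option autoImplicit false

open Complex Finset Filter Topology MeasureTheory Pool.OMG

namespace Pool.OMH

section caseB

open PowerSeries

private theorem rescale_lam (m : ℕ) {u : ℂ} (hu : u ≠ 0) :
    (C u - X) ^ m * rescale (1 / u) (lam 0) = C (u ^ m) * rescale (1 / u) (lam m) := by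
  have h1 : (C u - X : PowerSeries ℂ) = C u * rescale (1 / u) (1 - X) := by
    ext k
    rw [coeff_C_mul, coeff_rescale, map_sub, map_sub, coeff_C, coeff_one, coeff_X]
    rcases k with _ | _ | k
    · simp
    · simp [hu]
    · simp
  have h2 : lam m = (1 - X) ^ m * lam 0 := by
    rw [lam, lam, pow_zero, one_mul]
  rw [h2, h1, map_mul, mul_pow, map_pow (rescale (1 / u)), map_pow PowerSeries.C, mul_assoc]

private theorem main_term {c ρ : ℂ} {G : ℂ → ℂ} {R : ℝ} (m : ℕ) (hcρ : c ≠ ρ)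
    (hG : DifferentiableOn ℂ G (Metric.ball c R)) (hR : dist ρ c < R) :
    Tendsto (fun k : ℕ => (k : ℂ) ^ (m + 1) *
        coeff k (T c G * rescale (1 / (c - ρ)) (lam m)) / (1 / (c - ρ)) ^ k) atTop
      (𝓝 (((-1) ^ (m + 1) * (m.factorial : ℂ)) * G ρ)) := by
  have hne : c - ρ ≠ 0 := sub_ne_zero.mpr hcρ
  have hw : (1 / (c - ρ)) ≠ 0 := one_div_ne_zero hne
  obtain ⟨q, hq1, hq2⟩ := exists_between hR
  have hqpos : 0 < q := lt_of_le_of_lt dist_nonneg hq1
  obtain ⟨C, hC⟩ := T_bound hG hqpos hq2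
  have hn : (0 : ℝ) < ‖c - ρ‖ := norm_pos_iff.mpr hne
  have hq3 : ‖c - ρ‖ < q := by
    rw [dist_comm, Complex.dist_eq] at hq1; exact hq1
  refine asy_conv (m + 1) (T c G) _ _ _ hw (lam_rescale_asy m _ hw) C (1 / q) (by positivity) ?_ hC
    (G ρ) ?_
  · rw [norm_div, norm_one]
    exact one_div_lt_one_div_of_lt hn hq3
  · have := T_hasSum hG (s := ρ) (Metric.mem_ball.mpr hR)
    simpa using this

private theorem lowB {s0 : ℝ} (h1 : 1 < s0) {ρ : ℂ} {R1 : ℝ} (him : ρ.im ≠ 0)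
    (hd : dist ρ (s0 : ℂ) < R1) (hR1 : R1 ≤ s0 - 1 / 2) (h0 : Lf ρ = 0)
    (hz : ∀ s ∈ Metric.ball (s0 : ℂ) R1, Lf s = 0 → s = ρ ∨ s = (starRingEnd ℂ) ρ) :
    ∃ (m : ℕ) (R0 : ℝ) (C w : ℂ), R0 = dist ρ (s0 : ℂ) ∧ 0 < R0 ∧ R0 < s0 - 1 / 2 ∧ C ≠ 0 ∧
      ‖w‖ = 1 ∧ w ^ 2 ≠ 1 ∧
      Tendsto (fun k : ℕ => (k : ℝ) ^ m * J s0 k * R0 ^ k - (C * w ^ k).re) atTop (𝓝 0) := by
  obtain ⟨m, g, hm, hg, hfac, hconj, hgρ, hgρ'⟩ := factor him h0
  obtain ⟨h, B, q, hq, hB, hTP⟩ := pB h1 him hd hR1 h0 hz hm hg hfac hgρ hgρ'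
  set ρ' := (starRingEnd ℂ) ρ with hρ'
  have him' : ρ'.im ≠ 0 := by
    rw [hρ', Complex.conj_im]; exact neg_ne_zero.mpr him
  have hcρ : (s0 : ℂ) ≠ ρ := by
    intro h; apply him; rw [← h]; simp
  have hcρ' : (s0 : ℂ) ≠ ρ' := by
    intro h; apply him'; rw [← h]; simp
  have hρρ' : ρ ≠ ρ' := by
    intro h
    have := congrArg Complex.im h
    rw [hρ', Complex.conj_im] at this
    apply him; linarith
  have hne1 : (s0 : ℂ) - ρ ≠ 0 := sub_ne_zero.mpr hcρ
  have hne1' : (s0 : ℂ) - ρ' ≠ 0 := sub_ne_zero.mpr hcρ'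
  have hρ0 : ρ ≠ 0 := by
    intro h; apply him; rw [h]; simp
  have hρ'0 : ρ' ≠ 0 := by
    intro h; apply him'; rw [h]; simp
  set R0 : ℝ := ‖(s0 : ℂ) - ρ‖ with hR0
  have hR0pos : 0 < R0 := norm_pos_iff.mpr hne1
  have hdR0 : dist ρ (s0 : ℂ) = R0 := by rw [dist_comm, Complex.dist_eq]
  have hconjc : (starRingEnd ℂ) ((s0 : ℂ) - ρ) = (s0 : ℂ) - ρ' := by
    rw [map_sub, Complex.conj_ofReal]
  have hR0' : ‖(s0 : ℂ) - ρ'‖ = R0 := by
    rw [← hconjc, Complex.norm_conj]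
  have hdR0' : dist ρ' (s0 : ℂ) = R0 := by rw [dist_comm, Complex.dist_eq, hR0']
  have hs0R : R0 < s0 := by rw [hdR0] at hd; linarith
  -- the ball `ball c c` avoids zero
  have hball : ∀ s ∈ Metric.ball (s0 : ℂ) s0, s ≠ 0 := by
    intro s hs h
    rw [h, Metric.mem_ball, Complex.dist_eq, zero_sub, norm_neg, Complex.norm_real,
      Real.norm_eq_abs, abs_of_pos (by linarith)] at hs
    exact lt_irrefl _ hs
  set G1 : ℂ → ℂ := fun s => (s - ρ') ^ m * g s / s with hG1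
  set G2 : ℂ → ℂ := fun s => (s - ρ) ^ m * g s / s with hG2
  have dG1 : DifferentiableOn ℂ G1 (Metric.ball (s0 : ℂ) s0) :=
    ((((differentiable_id.sub_const ρ').pow m).mul hg).differentiableOn).div differentiableOn_id hball
  have dG2 : DifferentiableOn ℂ G2 (Metric.ball (s0 : ℂ) s0) :=
    ((((differentiable_id.sub_const ρ).pow m).mul hg).differentiableOn).div differentiableOn_id hball
  have dL : DifferentiableOn ℂ (fun s => Lf s / s) (Metric.ball (s0 : ℂ) s0) :=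
    Lf_differentiable.differentiableOn.div differentiableOn_id hball
  have hcb : (s0 : ℂ) ∈ Metric.ball (s0 : ℂ) s0 := Metric.mem_ball_self (by linarith)
  have aG1 : AnalyticAt ℂ G1 s0 := dG1.analyticAt (Metric.isOpen_ball.mem_nhds hcb)
  have aG2 : AnalyticAt ℂ G2 s0 := dG2.analyticAt (Metric.isOpen_ball.mem_nhds hcb)
  have aL : AnalyticAt ℂ (fun s => Lf s / s) s0 := dL.analyticAt (Metric.isOpen_ball.mem_nhds hcb)
  have aP : AnalyticAt ℂ P s0 :=
    P_differentiable.analyticAt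
      ((isOpen_lt continuous_const Complex.continuous_re).mem_nhds (by simpa using h1))
  -- powers
  have Tpow : ∀ (σ : ℂ) (n : ℕ), T (s0 : ℂ) (fun s => (s - σ) ^ n) = (PowerSeries.C ((s0 : ℂ) - σ) - X) ^ n := by
    intro σ n
    induction n with
    | zero => simp only [pow_zero]; rw [T_const]; simp
    | succ n ih =>
      have e : (fun s : ℂ => (s - σ) ^ (n + 1)) = fun s => (s - σ) ^ n * (s - σ) := by
        funext s; rw [pow_succ]
      rw [e, T_mul (by fun_prop) (by fun_prop), ih, T_sub, pow_succ]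
  have TL1 : T (s0 : ℂ) (fun s => Lf s / s) = (PowerSeries.C ((s0 : ℂ) - ρ) - X) ^ m * T (s0 : ℂ) G1 := by
    have e : (fun s => Lf s / s) = fun s => (s - ρ) ^ m * G1 s := by
      funext s; rw [hfac, hG1]; simp only [mul_pow]; ring
    rw [e, T_mul (by fun_prop) aG1, Tpow]
  have TL2 : T (s0 : ℂ) (fun s => Lf s / s) = (PowerSeries.C ((s0 : ℂ) - ρ') - X) ^ m * T (s0 : ℂ) G2 := by
    have e : (fun s => Lf s / s) = fun s => (s - ρ') ^ m * G2 s := by
      funext s; rw [hfac, hG2]; simp only [mul_pow]; ring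
    rw [e, T_mul (by fun_prop) aG2, Tpow]
  have hJ : ∀ k, (J s0 k : ℂ) = coeff k (T (s0 : ℂ) (fun s => Lf s / s) * T (s0 : ℂ) P) := by
    intro k
    rw [J_eq h1]
    have hev : (fun s => F s / s) =ᶠ[𝓝 (s0 : ℂ)] fun s => (Lf s / s) * P s := by
      have e1 : ∀ᶠ s in 𝓝 (s0 : ℂ), 1 < s.re :=
        (isOpen_lt continuous_const Complex.continuous_re).mem_nhds (by simpa using h1)
      filter_upwards [e1] with s hs
      rw [F_eq hs]; ring
    rw [T_congr hev, T_mul aL aP]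
  have hdec : T (s0 : ℂ) (fun s => Lf s / s) * T (s0 : ℂ) P =
      PowerSeries.C ((m : ℂ) * ((s0 : ℂ) - ρ) ^ m) *
          (T (s0 : ℂ) G1 * rescale (1 / ((s0 : ℂ) - ρ)) (lam m)) +
        PowerSeries.C ((m : ℂ) * ((s0 : ℂ) - ρ') ^ m) *
          (T (s0 : ℂ) G2 * rescale (1 / ((s0 : ℂ) - ρ')) (lam m)) +
        T (s0 : ℂ) (fun s => Lf s / s) * h := by
    have hmc : (m : PowerSeries ℂ) = PowerSeries.C (m : ℂ) := by simp
    have r1 := rescale_lam m hne1
    have r2 := rescale_lam m hne1'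
    have x1 : T (s0 : ℂ) (fun s => Lf s / s) *
        ((m : PowerSeries ℂ) * rescale (1 / ((s0 : ℂ) - ρ)) (lam 0)) =
        PowerSeries.C ((m : ℂ) * ((s0 : ℂ) - ρ) ^ m) *
          (T (s0 : ℂ) G1 * rescale (1 / ((s0 : ℂ) - ρ)) (lam m)) := by
      rw [TL1, hmc, map_mul]
      linear_combination (T (s0 : ℂ) G1 * PowerSeries.C (m : ℂ)) * r1
    have x2 : T (s0 : ℂ) (fun s => Lf s / s) *
        ((m : PowerSeries ℂ) * rescale (1 / ((s0 : ℂ) - ρ')) (lam 0)) =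
        PowerSeries.C ((m : ℂ) * ((s0 : ℂ) - ρ') ^ m) *
          (T (s0 : ℂ) G2 * rescale (1 / ((s0 : ℂ) - ρ')) (lam m)) := by
      rw [TL2, hmc, map_mul]
      linear_combination (T (s0 : ℂ) G2 * PowerSeries.C (m : ℂ)) * r2
    rw [← x1, ← x2, hTP]
    ring
  -- the three limits
  have L1 := main_term (c := (s0 : ℂ)) (ρ := ρ) m hcρ dG1 (by rw [hdR0]; exact hs0R)
  have L2 := main_term (c := (s0 : ℂ)) (ρ := ρ') m hcρ' dG2 (by rw [hdR0']; exact hs0R)
  have hB0 : 0 ≤ B := by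
    have := hB 0
    simp only [pow_zero, mul_one] at this
    exact le_trans (norm_nonneg _) this
  set q2 : ℝ := min q ((R0 + s0) / 2) with hq2
  have hq2a : R0 < q2 := by
    rw [hdR0] at hq
    exact lt_min hq (by linarith)
  have hq2b : q2 < s0 := lt_of_le_of_lt (min_le_right _ _) (by linarith)
  have hq2pos : 0 < q2 := lt_trans hR0pos hq2a
  have hqpos : 0 < q := lt_of_lt_of_le hq2pos (min_le_left _ _)
  have hB2 : ∀ k, ‖coeff k h‖ ≤ B * (1 / q2) ^ k := by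
    intro k
    refine (hB k).trans (mul_le_mul_of_nonneg_left ?_ hB0)
    exact pow_le_pow_left₀ (by positivity) (one_div_le_one_div_of_le hq2pos (min_le_left _ _)) k
  set q1 : ℝ := (q2 + s0) / 2 with hq1
  have hq1a : q2 < q1 := by rw [hq1]; linarith
  have hq1b : q1 < s0 := by rw [hq1]; linarith
  have hq1pos : 0 < q1 := lt_trans hq2pos hq1a
  obtain ⟨D, hD⟩ := T_bound dL hq1pos hq1b
  obtain ⟨D2, hD2⟩ := bd_mul (T (s0 : ℂ) (fun s => Lf s / s)) h D (1 / q1) B (1 / q2)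
    (by positivity) (one_div_lt_one_div_of_lt hq2pos hq1a) hD hB2
  have hw0 : (1 / ((s0 : ℂ) - ρ)) ≠ 0 := one_div_ne_zero hne1
  have L3 := negl (m + 1) (T (s0 : ℂ) (fun s => Lf s / s) * h) (1 / ((s0 : ℂ) - ρ)) D2 (1 / q2)
    (by positivity) (by
      rw [norm_div, norm_one]
      exact one_div_lt_one_div_of_lt hR0pos hq2a) hD2
  -- the constants
  set w : ℂ := 1 / ((s0 : ℂ) - ρ) with hw
  set w' : ℂ := 1 / ((s0 : ℂ) - ρ') with hw'
  have hww' : w' = (starRingEnd ℂ) w := by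
    rw [hw, hw', map_div₀, map_one, hconjc]
  set om : ℂ := w * (R0 : ℂ) with hom
  have hom1 : ‖om‖ = 1 := by
    rw [hom, norm_mul, hw, norm_div, norm_one, Complex.norm_real, Real.norm_eq_abs,
      abs_of_pos hR0pos, ← hR0]
    field_simp
  set om' : ℂ := w' * (R0 : ℂ) with hom'
  have homc : om' = (starRingEnd ℂ) om := by
    rw [hom, hom', map_mul, Complex.conj_ofReal, hww']
  set C0 : ℂ := (-1) ^ (m + 1) * (m.factorial : ℂ) with hC0
  have hC0c : (starRingEnd ℂ) C0 = C0 := by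
    rw [hC0]; simp
  set D0 : ℂ := (m : ℂ) * ((s0 : ℂ) - ρ) ^ m * (C0 * G1 ρ) with hD0
  set D0' : ℂ := (m : ℂ) * ((s0 : ℂ) - ρ') ^ m * (C0 * G2 ρ') with hD0'
  have hGc : G2 ρ' = (starRingEnd ℂ) (G1 ρ) := by
    rw [hG1, hG2]
    simp only [map_div₀, map_mul, map_pow, map_sub]
    rw [← hconj ρ, ← hρ']
    have : (starRingEnd ℂ) ρ' = ρ := by rw [hρ', Complex.conj_conj]
    rw [this]
  have hDc : D0' = (starRingEnd ℂ) D0 := by
    rw [hD0, hD0', hGc]
    simp only [map_mul, map_pow, hconjc, hC0c, map_natCast]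
  have hD0ne : D0 ≠ 0 := by
    have hm0 : (m : ℂ) ≠ 0 := by
      exact_mod_cast (by omega : m ≠ 0)
    have hC0ne : C0 ≠ 0 := by
      rw [hC0]
      exact mul_ne_zero (pow_ne_zero _ (by norm_num)) (by exact_mod_cast Nat.factorial_ne_zero m)
    have hGne : G1 ρ ≠ 0 := by
      rw [hG1]
      exact div_ne_zero (mul_ne_zero (pow_ne_zero _ (sub_ne_zero.mpr hρρ')) hgρ) hρ0
    exact mul_ne_zero (mul_ne_zero hm0 (pow_ne_zero _ hne1)) (mul_ne_zero hC0ne hGne)
  refine ⟨m + 1, R0, 2 * D0, om, hdR0.symm, hR0pos, ?_, mul_ne_zero two_ne_zero hD0ne, hom1,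
    ?_, ?_⟩
  · rw [hdR0] at hd; linarith
  · intro h2
    have h3 : (R0 : ℂ) ^ 2 = ((s0 : ℂ) - ρ) ^ 2 := by
      rw [hom, hw] at h2
      field_simp at h2
      exact h2
    have h4 : ((R0 : ℂ) - ((s0 : ℂ) - ρ)) * ((R0 : ℂ) + ((s0 : ℂ) - ρ)) = 0 := by
      linear_combination h3
    rcases mul_eq_zero.mp h4 with h5 | h5
    · have := congrArg Complex.im h5
      simp at this
      exact him this
    · have := congrArg Complex.im h5
      simp at this
      exact him this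
  · -- complex version
    have key : Tendsto (fun k : ℕ => (k : ℂ) ^ (m + 1) * (J s0 k : ℂ) * (R0 : ℂ) ^ k -
        (D0 * om ^ k + D0' * om' ^ k)) atTop (𝓝 0) := by
      have M1 : Tendsto (fun k : ℕ => ((k : ℂ) ^ (m + 1) *
          coeff k (T (s0 : ℂ) G1 * rescale w (lam m)) / w ^ k - C0 * G1 ρ)) atTop (𝓝 0) := by
        have := L1.sub_const (C0 * G1 ρ)
        simpa using this
      have M2 : Tendsto (fun k : ℕ => ((k : ℂ) ^ (m + 1) *
          coeff k (T (s0 : ℂ) G2 * rescale w' (lam m)) / w' ^ k - C0 * G2 ρ')) atTop (𝓝 0) := by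
        have := L2.sub_const (C0 * G2 ρ')
        simpa using this
      have bd : ∀ (a : ℂ) (z : ℂ), ‖z‖ = 1 → ∀ f : ℕ → ℂ, Tendsto f atTop (𝓝 0) →
          Tendsto (fun k => a * z ^ k * f k) atTop (𝓝 0) := by
        intro a z hz f hf
        rw [tendsto_zero_iff_norm_tendsto_zero] at hf ⊢
        have : (fun k => ‖a * z ^ k * f k‖) = fun k => ‖a‖ * ‖f k‖ := by
          funext k
          rw [norm_mul, norm_mul, norm_pow, hz, one_pow, mul_one]
        rw [this]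
        simpa using hf.const_mul ‖a‖
      have hom1' : ‖om'‖ = 1 := by rw [homc, Complex.norm_conj, hom1]
      have N1 := bd ((m : ℂ) * ((s0 : ℂ) - ρ) ^ m) om hom1 _ M1
      have N2 := bd ((m : ℂ) * ((s0 : ℂ) - ρ') ^ m) om' hom1' _ M2
      have N3 := bd 1 om hom1 _ L3
      have N := (N1.add N2).add N3
      simp only [add_zero] at N
      refine N.congr ?_
      intro k
      rw [hJ k, hdec, map_add, map_add, coeff_C_mul, coeff_C_mul]
      have hwk : w ^ k ≠ 0 := pow_ne_zero _ hw0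
      have hw0' : w' ≠ 0 := by rw [hw']; exact one_div_ne_zero hne1'
      have hwk' : w' ^ k ≠ 0 := pow_ne_zero _ hw0'
      have e1 : om ^ k = w ^ k * (R0 : ℂ) ^ k := by rw [hom, mul_pow]
      have e2 : om' ^ k = w' ^ k * (R0 : ℂ) ^ k := by rw [hom', mul_pow]
      rw [e1, e2, hD0, hD0']
      field_simp
      ring
    have key2 := (Complex.continuous_re.tendsto (0 : ℂ)).comp key
    rw [Complex.zero_re] at key2
    refine key2.congr ?_
    intro k
    simp only [Function.comp]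
    rw [Complex.sub_re]
    have e1 : D0 * om ^ k + D0' * om' ^ k = ((2 * (D0 * om ^ k).re : ℝ) : ℂ) := by
      rw [hDc, homc, ← map_pow, ← map_mul, Complex.add_conj]
    have e2 : (k : ℂ) ^ (m + 1) * (J s0 k : ℂ) * (R0 : ℂ) ^ k =
        (((k : ℝ) ^ (m + 1) * J s0 k * R0 ^ k : ℝ) : ℂ) := by push_cast; ring
    rw [e1, e2, Complex.ofReal_re, Complex.ofReal_re]
    have e3 : (2 * D0 * om ^ k).re = 2 * (D0 * om ^ k).re := by
      rw [mul_assoc]
      simp
    rw [e3]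

end caseB

private theorem low_alg1 {x r c : ℝ} (k : ℕ) (j : ℝ) (hx : 0 < x) (hr : 0 < r) :
    x * r ^ k * (j + c / x * (1 / r) ^ k) = x * r ^ k * j + c := by
  rw [one_div_pow]
  field_simp

private theorem low_alg2 {x r a : ℝ} (k : ℕ) (hx : 0 < x) (hr : 0 < r) :
    x * r ^ k * (-(a / x * (1 / r) ^ k)) = -a := by
  rw [one_div_pow]
  field_simp

private theorem low_alg3 {x y r R c : ℝ} (k : ℕ) (hx : 0 < x) (hr : 0 < r) :
    y * R ^ k * (c / x * (1 / r) ^ k) = c * y * R ^ k / (x * r ^ k) := by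
  rw [one_div_pow]
  field_simp

private theorem low_caseA_tendsto {s0 : ℝ} (h1 : 1 < s0) (hA : CaseA s0) :
    Tendsto (fun k : ℕ => (k : ℝ) * (s0 - 1 / 2) ^ k * J s0 k) atTop (𝓝 (-Lhalf)) := by
  have hs0 : (0 : ℝ) < s0 := by linarith
  have hG : DifferentiableOn ℂ (fun s => Lf s / s) (Metric.ball (s0 : ℂ) s0) := by
    intro s hs
    have hne : s ≠ 0 := by
      rintro rfl
      rw [Metric.mem_ball, dist_comm, dist_eq_norm, sub_zero, Complex.norm_real,
        Real.norm_eq_abs, abs_of_pos hs0] at hs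
      exact lt_irrefl _ hs
    exact ((Lf_differentiable s).div differentiableAt_id hne).differentiableWithinAt
  have h := caseA_asy h1 hA (fun s => Lf s / s) s0 (by linarith) hG
  have hG2 : -((fun s => Lf s / s) (1 / 2 : ℂ)) / 2 = ((-Lhalf : ℝ) : ℂ) := by
    simp only [Lf_half]
    push_cast
    field_simp
  rw [hG2] at h
  have hsne : (s0 : ℂ) ≠ 0 := by exact_mod_cast hs0.ne'
  have hopen : {s : ℂ | 1 < s.re} ∈ 𝓝 (s0 : ℂ) := by
    apply (isOpen_lt continuous_const Complex.continuous_re).mem_nhds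
    simpa using h1
  have hT : T (s0 : ℂ) (fun s => Lf s / s) * T (s0 : ℂ) P = T (s0 : ℂ) (fun s => F s / s) := by
    rw [← T_mul]
    · apply T_congr
      filter_upwards [hopen] with s hs
      rw [F_eq hs]
      ring
    · apply DifferentiableOn.analyticAt (s := Metric.ball (s0 : ℂ) s0) hG
      exact Metric.isOpen_ball.mem_nhds (Metric.mem_ball_self hs0)
    · exact P_differentiable.analyticAt hopen
  rw [hT] at h
  have h2 := (Complex.continuous_re.tendsto _).comp h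
  rw [Complex.ofReal_re] at h2
  refine h2.congr fun k => ?_
  simp only [Function.comp_apply]
  rw [← J_eq h1 k]
  have : ((k : ℂ) * (J s0 k : ℂ) * ((s0 : ℂ) - 1 / 2) ^ k) =
      (((k : ℝ) * (s0 - 1 / 2) ^ k * J s0 k : ℝ) : ℂ) := by
    push_cast
    ring
  rw [this, Complex.ofReal_re]

private theorem low_large {r R0 : ℝ} (hR0 : 0 < R0) (hr : R0 < r) (m : ℕ) (B : ℝ) :
    ∀ᶠ k : ℕ in atTop, B * (k : ℝ) ^ m * R0 ^ k ≤ (k : ℝ) * r ^ k := by
  have hq : 1 < r / R0 := (one_lt_div hR0).2 hr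
  have ht := tendsto_pow_const_div_const_pow_of_one_lt m hq
  have hpos : (0 : ℝ) < 1 / (|B| + 1) := by positivity
  filter_upwards [(tendsto_order.1 ht).2 _ hpos, eventually_ge_atTop 1] with k hk hk1
  have hk1' : (1 : ℝ) ≤ k := by exact_mod_cast hk1
  have hqk : 0 < (r / R0) ^ k := by positivity
  rw [div_lt_div_iff₀ hqk (by positivity), one_mul] at hk
  have hRk : 0 < R0 ^ k := by positivity
  have e1 : (r / R0) ^ k * R0 ^ k = r ^ k := by
    rw [← mul_pow, div_mul_cancel₀ _ hR0.ne']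
  have hrk : 0 < r ^ k := pow_pos (hR0.trans hr) k
  have h2 : (k : ℝ) ^ m * (|B| + 1) * R0 ^ k < r ^ k := by
    rw [← e1]
    exact mul_lt_mul_of_pos_right hk hRk
  have hkm : 0 ≤ (k : ℝ) ^ m := by positivity
  have h3 : B * (k : ℝ) ^ m * R0 ^ k ≤ (k : ℝ) ^ m * (|B| + 1) * R0 ^ k := by
    apply mul_le_mul_of_nonneg_right _ hRk.le
    rw [mul_comm]
    exact mul_le_mul_of_nonneg_left (by linarith [le_abs_self B]) hkm
  nlinarith

theorem low {Θ c : ℝ} (hΘ : 1 / 2 ≤ Θ) (hz : ∀ s : ℂ, Θ < s.re → Lf s ≠ 0)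
    (hsup : Θ = 1 / 2 ∨ ∀ η : ℝ, 0 < η → ∃ ρ : ℂ, Lf ρ = 0 ∧ Θ - η < ρ.re ∧ 1 / 2 < ρ.re)
    (hc : c < Lhalf) {η : ℝ} (hη : 0 < η) (B : ℝ) :
    ∃ s0 : ℝ, B < s0 ∧ 1 < s0 ∧ ∃ (m N K : ℕ) (a R : ℝ), 0 < a ∧ 0 < R ∧ R ≤ s0 - Θ + η ∧
      R ≤ s0 - 1 / 2 ∧ ∀ k0 : ℕ, K ≤ k0 → ∃ k : ℕ, k0 ≤ k ∧ k ≤ k0 + N ∧
        J s0 k + c / k * (1 / (s0 - 1 / 2)) ^ k ≤ -(a / (k : ℝ) ^ m * (1 / R) ^ k) := by
  rcases hsup with hΘ2 | hsup
  · -- no zero to the right of `1/2`
    obtain ⟨s0, hs0, hcase⟩ := cases_exist (max 1 B)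
    have h1 : 1 < s0 := (le_max_left _ _).trans_lt hs0
    have hB : B < s0 := (le_max_right _ _).trans_lt hs0
    have hr : 0 < s0 - 1 / 2 := by linarith
    have hA : CaseA s0 := by
      rcases hcase with hA | hB
      · exact hA
      · obtain ⟨ρ, R1, him, hre, hd, hR1, h0, -⟩ := hB
        exact absurd h0 (hz ρ (by rw [hΘ2]; exact hre))
    have ht := low_caseA_tendsto h1 hA
    set a : ℝ := (Lhalf - c) / 2 with ha
    have ha0 : 0 < a := by rw [ha]; linarith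
    obtain ⟨K, hK⟩ := (Metric.tendsto_atTop.1 ht) a ha0
    refine ⟨s0, hB, h1, 1, 0, max K 1, a, s0 - 1 / 2, ha0, hr, by linarith, le_rfl,
      fun k0 hk0 => ⟨k0, le_rfl, le_rfl, ?_⟩⟩
    have hk1 : 1 ≤ k0 := (le_max_right _ _).trans hk0
    have h3 := hK k0 ((le_max_left _ _).trans hk0)
    rw [Real.dist_eq, abs_lt] at h3
    have hk : (0 : ℝ) < k0 := by exact_mod_cast hk1
    have hrk : 0 < (s0 - 1 / 2) ^ k0 := pow_pos hr k0
    have hpos : 0 < (k0 : ℝ) * (s0 - 1 / 2) ^ k0 := mul_pos hk hrk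
    have e1 : (k0 : ℝ) * (s0 - 1 / 2) ^ k0 *
        (J s0 k0 + c / k0 * (1 / (s0 - 1 / 2)) ^ k0) =
        (k0 : ℝ) * (s0 - 1 / 2) ^ k0 * J s0 k0 + c := low_alg1 k0 _ hk hr
    have e2 : (k0 : ℝ) * (s0 - 1 / 2) ^ k0 * (-(a / (k0 : ℝ) ^ 1 * (1 / (s0 - 1 / 2)) ^ k0)) =
        -a := by
      rw [pow_one]
      exact low_alg2 k0 hk hr
    refine le_of_mul_le_mul_left ?_ hpos
    rw [e1, e2]
    linarith [h3.2]
  · -- a zero with real part close to `Θ`
    obtain ⟨ρ1, h01, hre1, hre1'⟩ := hsup (η / 2) (half_pos hη)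
    set d : ℝ := ρ1.re - 1 / 2 with hd
    have hd0 : 0 < d := by rw [hd]; linarith
    obtain ⟨s0, hs0, hcase⟩ := cases_exist (max (max 1 B)
      (ρ1.re + ρ1.im ^ 2 / η + ρ1.im ^ 2 / (2 * d)))
    have h1 : 1 < s0 := ((le_max_left _ _).trans (le_max_left _ _)).trans_lt hs0
    have hB : B < s0 := ((le_max_right _ _).trans (le_max_left _ _)).trans_lt hs0
    have hbig : ρ1.re + ρ1.im ^ 2 / η + ρ1.im ^ 2 / (2 * d) < s0 :=
      (le_max_right _ _).trans_lt hs0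
    have q1 : 0 ≤ ρ1.im ^ 2 / η := by positivity
    have q2 : 0 ≤ ρ1.im ^ 2 / (2 * d) := by positivity
    have u0 : 0 < s0 - ρ1.re := by linarith
    have u1 : ρ1.im ^ 2 ≤ η * (s0 - ρ1.re) := by
      have : ρ1.im ^ 2 / η ≤ s0 - ρ1.re := by linarith
      rw [div_le_iff₀ hη] at this
      linarith
    have u2 : ρ1.im ^ 2 ≤ 2 * d * (s0 - ρ1.re) := by
      have : ρ1.im ^ 2 / (2 * d) ≤ s0 - ρ1.re := by linarith
      rw [div_le_iff₀ (by positivity)] at this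
      linarith
    have hsq : dist ρ1 (s0 : ℂ) ^ 2 = (s0 - ρ1.re) ^ 2 + ρ1.im ^ 2 := by
      rw [Complex.dist_eq, Complex.sq_norm, Complex.normSq_apply]
      simp only [Complex.sub_re, Complex.sub_im, Complex.ofReal_re, Complex.ofReal_im]
      ring
    have v1 : dist ρ1 (s0 : ℂ) ≤ s0 - Θ + η := by
      have h3 : dist ρ1 (s0 : ℂ) ≤ s0 - ρ1.re + η / 2 := by
        refine abs_le_of_sq_le_sq' ?_ (by linarith) |>.2
        rw [hsq]
        nlinarith [sq_nonneg η]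
      linarith
    have v2 : dist ρ1 (s0 : ℂ) < s0 - 1 / 2 := by
      have h3 : s0 - 1 / 2 = s0 - ρ1.re + d := by rw [hd]; ring
      rw [h3]
      refine abs_lt_of_sq_lt_sq' ?_ (by linarith) |>.2
      rw [hsq]
      nlinarith [sq_pos_of_pos hd0]
    have hBc : CaseB s0 := by
      rcases hcase with hA | hB
      · obtain ⟨R1, hR1, hA⟩ := hA
        exact absurd h01 (hA ρ1 (Metric.mem_ball.mpr (v2.trans hR1)))
      · exact hB
    obtain ⟨ρ, R1, him, hre, hdR, hR1, h0, hzz⟩ := hBc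
    obtain ⟨m, R0, C, w, hR0e, hR0, hR0r, hC, hw, hw2, ht⟩ := lowB h1 him hdR hR1 h0 hzz
    have hR01 : R0 ≤ dist ρ1 (s0 : ℂ) := by
      rcases lt_or_ge (dist ρ1 (s0 : ℂ)) R1 with hlt | hge
      · rcases hzz ρ1 (Metric.mem_ball.mpr hlt) h01 with h | h
        · rw [hR0e, h]
        · rw [hR0e, h, Complex.dist_eq, Complex.dist_eq, ← Complex.norm_conj (ρ - s0), map_sub,
            Complex.conj_ofReal]
      · rw [hR0e]
        exact hdR.le.trans hge
    obtain ⟨η1, hη1, N, hN⟩ := cos_gap hC hw hw2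
    obtain ⟨K1, hK1⟩ := (Metric.tendsto_atTop.1 ht) (η1 / 2) (half_pos hη1)
    obtain ⟨K3, hK3⟩ := eventually_atTop.1 (low_large hR0 hR0r m (|c| / (η1 / 4)))
    refine ⟨s0, hB, h1, m, N, max (max K1 K3) 1, η1 / 4, R0, by positivity, hR0,
      hR01.trans v1, hR0r.le, fun k0 hk0 => ?_⟩
    obtain ⟨k, b1, b2, b3⟩ := hN k0
    have g1 : K1 ≤ k := (((le_max_left _ _).trans (le_max_left _ _)).trans hk0).trans b1
    have g3 : K3 ≤ k := (((le_max_right _ _).trans (le_max_left _ _)).trans hk0).trans b1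
    have g4 : 1 ≤ k := ((le_max_right _ _).trans hk0).trans b1
    refine ⟨k, b1, b2, ?_⟩
    have a1 := hK1 k g1
    rw [Real.dist_eq, sub_zero, abs_lt] at a1
    have a3 := hK3 k g3
    have hk : (0 : ℝ) < k := by exact_mod_cast g4
    have hkm : (0 : ℝ) < (k : ℝ) ^ m := by positivity
    have hRk : (0 : ℝ) < R0 ^ k := by positivity
    have hr : 0 < s0 - 1 / 2 := hR0.trans hR0r
    have hrk : (0 : ℝ) < (s0 - 1 / 2) ^ k := pow_pos hr k
    have a4 : (k : ℝ) ^ m * J s0 k * R0 ^ k ≤ -(η1 / 2) := by linarith [a1.2]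
    have hpos : 0 < (k : ℝ) ^ m * R0 ^ k := mul_pos hkm hRk
    refine le_of_mul_le_mul_left ?_ hpos
    have e1 : (k : ℝ) ^ m * R0 ^ k * (-(η1 / 4 / (k : ℝ) ^ m * (1 / R0) ^ k)) = -(η1 / 4) :=
      low_alg2 k hkm hR0
    have e2 : (k : ℝ) ^ m * R0 ^ k * (c / k * (1 / (s0 - 1 / 2)) ^ k) ≤ η1 / 4 := by
      have e3 : (k : ℝ) ^ m * R0 ^ k * (c / k * (1 / (s0 - 1 / 2)) ^ k) =
          c * (k : ℝ) ^ m * R0 ^ k / ((k : ℝ) * (s0 - 1 / 2) ^ k) := low_alg3 k hk hr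
      rw [e3, div_le_iff₀ (mul_pos hk hrk)]
      have e4 : |c| / (η1 / 4) * (k : ℝ) ^ m * R0 ^ k * (η1 / 4) =
          |c| * (k : ℝ) ^ m * R0 ^ k := by
        field_simp
      have e5 : c * (k : ℝ) ^ m * R0 ^ k ≤ |c| * (k : ℝ) ^ m * R0 ^ k := by
        have := le_abs_self c
        gcongr
      have e6 := mul_le_mul_of_nonneg_right a3 (show (0 : ℝ) ≤ η1 / 4 by positivity)
      linarith
    rw [e1, mul_add]
    have e7 : (k : ℝ) ^ m * R0 ^ k * J s0 k = (k : ℝ) ^ m * J s0 k * R0 ^ k := by ring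
    rw [e7]
    linarith

end Pool.OMH
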