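import Pool.Agent.OMH.Coef
import Pool.Agent.OMH.Iter
import Pool.Agent.Helper3.TG.Plancherel

/-!
# OMH SQ: mean square bound for the weighted function

`f y = A(e^y) e^(-s0 y) y^k / k!` on `(0, oo)`, `0` elsewhere, is integrable (`J_integrable`) and
square integrable (`A_bound`). `∫ exp(I E y) f y dy` at `E = -t` is `(-1)^k / k!` times the
`iteratedDeriv` of `F s / s` at `s0 + t I` (`F_iter`), at most `C r^(-k) (1+|t|)^(-κ)` by
`coef_bound`, `2 κ > 1`. Plancherel: `Pool.Agent.Helper3.TG.plancherel`.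
-/

set_option autoImplicit false

open Complex Finset Filter Topology MeasureTheory Pool.OMG

namespace Pool.OMH

private theorem pow_exp_int {b : ℝ} (hb : 0 < b) (k : ℕ) :
    IntegrableOn (fun y : ℝ => y ^ k * Real.exp (-b * y)) (Set.Ioi 0) := by
  have h := integrableOn_rpow_mul_exp_neg_mul_rpow (p := 1) (s := (k : ℝ)) (b := b)
    (by have : (0 : ℝ) ≤ k := Nat.cast_nonneg k
        linarith) one_pos hb
  refine h.congr_fun ?_ measurableSet_Ioi
  intro y _
  simp only [Real.rpow_natCast, Real.rpow_one]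

private theorem w_sq_int {s0 : ℝ} (h1 : 1 < s0) (k : ℕ) :
    IntegrableOn (fun y : ℝ => (A (Real.exp y) * Real.exp (-s0 * y) * y ^ k /
      (k.factorial : ℝ)) ^ 2) (Set.Ioi 0) := by
  have hb : 0 < 2 * (s0 - 1) := by linarith
  have h2 := (((pow_exp_int hb (2 * k)).add ((pow_exp_int hb (2 * k + 1)).const_mul 2)).add
    (pow_exp_int hb (2 * k + 2))).const_mul 4
  refine Integrable.mono' h2 ?_ ?_
  · refine Measurable.aestronglyMeasurable ?_
    exact (((((A_measurable.comp Real.measurable_exp).mul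
      (Real.measurable_exp.comp (measurable_const.mul measurable_id))).mul
      (measurable_id.pow_const k))).div_const _).pow_const 2
  · refine (ae_restrict_iff' measurableSet_Ioi).2 (Filter.Eventually.of_forall ?_)
    intro y hy
    have hy0 : 0 < y := hy
    have hA := A_bound hy0.le
    have hk : (1 : ℝ) ≤ (k.factorial : ℝ) := by
      exact_mod_cast Nat.succ_le_of_lt (Nat.factorial_pos k)
    have e : Real.exp y * Real.exp (-s0 * y) * (Real.exp y * Real.exp (-s0 * y)) =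
        Real.exp (-(2 * (s0 - 1)) * y) := by
      rw [← Real.exp_add, ← Real.exp_add]
      congr 1
      ring
    have h3 : |A (Real.exp y) * Real.exp (-s0 * y) * y ^ k / (k.factorial : ℝ)| ≤
        2 * (1 + y) * Real.exp y * Real.exp (-s0 * y) * y ^ k := by
      rw [abs_div, abs_mul, abs_mul, Real.abs_exp, abs_of_nonneg (pow_nonneg hy0.le k),
        abs_of_nonneg (by linarith : (0 : ℝ) ≤ (k.factorial : ℝ))]
      refine (div_le_self (by positivity) hk).trans ?_
      gcongr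
    rw [Real.norm_eq_abs, abs_pow]
    calc |A (Real.exp y) * Real.exp (-s0 * y) * y ^ k / (k.factorial : ℝ)| ^ 2
        ≤ (2 * (1 + y) * Real.exp y * Real.exp (-s0 * y) * y ^ k) ^ 2 := by
          gcongr
      _ = 4 * (1 + y) ^ 2 * (Real.exp y * Real.exp (-s0 * y) *
            (Real.exp y * Real.exp (-s0 * y))) * y ^ (2 * k) := by ring
      _ = 4 * (y ^ (2 * k) * Real.exp (-(2 * (s0 - 1)) * y) +
            2 * (y ^ (2 * k + 1) * Real.exp (-(2 * (s0 - 1)) * y)) +
            y ^ (2 * k + 2) * Real.exp (-(2 * (s0 - 1)) * y)) := by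
          rw [e]
          ring

private theorem w_fourier {s0 : ℝ} (h1 : 1 < s0) (k : ℕ) (E : ℝ) :
    ∫ y : ℝ, Complex.exp (Complex.I * E * y) * (Set.Ioi (0 : ℝ)).indicator
      (fun y : ℝ => ((A (Real.exp y) * Real.exp (-s0 * y) * y ^ k /
        (k.factorial : ℝ) : ℝ) : ℂ)) y =
    (-1) ^ k / (k.factorial : ℂ) *
      iteratedDeriv k (fun s => F s / s) ((s0 : ℂ) + ((-E : ℝ) : ℂ) * I) := by
  rw [F_iter h1 k (-E)]
  have h2 : ∀ y : ℝ, Complex.exp (Complex.I * E * y) * (Set.Ioi (0 : ℝ)).indicator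
      (fun y : ℝ => ((A (Real.exp y) * Real.exp (-s0 * y) * y ^ k /
        (k.factorial : ℝ) : ℝ) : ℂ)) y =
      (Set.Ioi (0 : ℝ)).indicator (fun y : ℝ => (1 / (k.factorial : ℂ)) *
        ((A (Real.exp y) : ℂ) * Complex.exp (-((s0 : ℂ) + ((-E : ℝ) : ℂ) * I) * y) *
        (y : ℂ) ^ k)) y := by
    intro y
    by_cases hy : y ∈ Set.Ioi (0 : ℝ)
    · rw [Set.indicator_of_mem hy, Set.indicator_of_mem hy]
      have e1 : Complex.exp (-((s0 : ℂ) + ((-E : ℝ) : ℂ) * I) * y) =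
          Complex.exp (Complex.I * E * y) * Complex.exp (-(s0 : ℂ) * y) := by
        rw [← Complex.exp_add]
        congr 1
        push_cast
        ring
      rw [e1]
      push_cast
      ring
    · rw [Set.indicator_of_notMem hy, Set.indicator_of_notMem hy, mul_zero]
  simp_rw [h2]
  rw [integral_indicator measurableSet_Ioi, integral_const_mul, ← mul_assoc]
  congr 1
  have h3 : ((-1 : ℂ) ^ k) * (-1) ^ k = 1 := by
    rw [← mul_pow]
    norm_num
  rw [div_mul_eq_mul_div, h3]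

theorem sq_bound {Θ : ℝ} (hΘ : 1 / 2 ≤ Θ) (hz : ∀ s : ℂ, Θ < s.re → Lf s ≠ 0) {s0 r : ℝ}
    (h1 : 1 < s0) (hr : 0 < r) (hr2 : r < s0 - Θ) : ∃ C : ℝ, 0 < C ∧ ∀ k : ℕ,
      IntegrableOn (fun y : ℝ => (A (Real.exp y) * Real.exp (-s0 * y) * y ^ k /
        (k.factorial : ℝ)) ^ 2) (Set.Ioi 0) ∧
      ∫ y in Set.Ioi (0 : ℝ), (A (Real.exp y) * Real.exp (-s0 * y) * y ^ k /
        (k.factorial : ℝ)) ^ 2 ≤ C * (1 / r) ^ (2 * k) := by
  obtain ⟨C, κ, hC, hκ, hcoef⟩ := coef_bound hΘ hz h1 hr hr2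
  have hKi : Integrable (fun E : ℝ => (1 + ‖E‖) ^ (-(2 * κ))) := by
    apply integrable_one_add_norm
    simp only [Module.finrank_self, Nat.cast_one]
    linarith
  set K : ℝ := ∫ E : ℝ, (1 + ‖E‖) ^ (-(2 * κ)) with hK
  have hK0 : 0 ≤ K := integral_nonneg fun E => by positivity
  refine ⟨C ^ 2 * K + 1, by positivity, fun k => ⟨w_sq_int h1 k, ?_⟩⟩
  set w : ℝ → ℝ := fun y => A (Real.exp y) * Real.exp (-s0 * y) * y ^ k / (k.factorial : ℝ)
    with hw
  set g : ℝ → ℂ := (Set.Ioi (0 : ℝ)).indicator (fun y : ℝ => ((w y : ℝ) : ℂ)) with hg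
  have hgi : Integrable g := by
    rw [hg, integrable_indicator_iff measurableSet_Ioi]
    exact (J_integrable h1 k).ofReal
  have hgn : ∀ y, ‖g y‖ ^ 2 = (Set.Ioi (0 : ℝ)).indicator (fun y => w y ^ 2) y := by
    intro y
    by_cases hy : y ∈ Set.Ioi (0 : ℝ)
    · rw [hg, Set.indicator_of_mem hy, Set.indicator_of_mem hy, Complex.norm_real,
        Real.norm_eq_abs, sq_abs]
    · rw [hg, Set.indicator_of_notMem hy, Set.indicator_of_notMem hy]
      simp
  have hgsq : Integrable (fun y => ‖g y‖ ^ 2) := by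
    simp_rw [hgn]
    rw [integrable_indicator_iff measurableSet_Ioi]
    exact w_sq_int h1 k
  have hg2 : MemLp g 2 := (memLp_two_iff_integrable_sq_norm hgi.aestronglyMeasurable).2 hgsq
  have hpl := Pool.Agent.Helper3.TG.plancherel hgi hg2
  have hval : ∫⁻ y : ℝ, ‖g y‖ₑ ^ 2 = ENNReal.ofReal (∫ y in Set.Ioi (0 : ℝ), w y ^ 2) := by
    rw [← integral_indicator measurableSet_Ioi]
    simp_rw [← hgn]
    rw [ofReal_integral_eq_lintegral_ofReal hgsq (Eventually.of_forall fun y => by positivity)]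
    refine lintegral_congr fun y => ?_
    rw [ENNReal.ofReal_pow (norm_nonneg _), ofReal_norm]
  have hfb : ∀ E : ℝ, ‖∫ y : ℝ, Complex.exp (Complex.I * E * y) * g y‖ₑ ^ 2 ≤
      ENNReal.ofReal (C ^ 2 * (1 / r) ^ (2 * k) * (1 + ‖E‖) ^ (-(2 * κ))) := by
    intro E
    have e1 := w_fourier h1 k E
    have e2 : ‖∫ y : ℝ, Complex.exp (Complex.I * E * y) * g y‖ ≤
        C * (1 / r) ^ k * (1 + ‖E‖) ^ (-κ) := by
      rw [hg, hw]
      rw [e1, norm_mul, norm_div, norm_pow, norm_neg, norm_one, one_pow]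
      have h3 := hcoef k (-E)
      have hf : (0 : ℝ) < (k.factorial : ℝ) := by exact_mod_cast Nat.factorial_pos k
      have h4 : ‖(k.factorial : ℂ)‖ = (k.factorial : ℝ) := by simp
      rw [h4]
      calc 1 / (k.factorial : ℝ) * ‖iteratedDeriv k (fun s => F s / s)
            ((s0 : ℂ) + ((-E : ℝ) : ℂ) * I)‖
          ≤ 1 / (k.factorial : ℝ) * (C * (k.factorial : ℝ) / r ^ k * (1 + |-E|) ^ (-κ)) := by
            gcongr
        _ = C * (1 / r) ^ k * (1 + ‖E‖) ^ (-κ) := by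
            rw [abs_neg, Real.norm_eq_abs, one_div_pow]
            field_simp
    rw [← ofReal_norm, ← ENNReal.ofReal_pow (norm_nonneg _)]
    apply ENNReal.ofReal_le_ofReal
    calc ‖∫ y : ℝ, Complex.exp (Complex.I * E * y) * g y‖ ^ 2
        ≤ (C * (1 / r) ^ k * (1 + ‖E‖) ^ (-κ)) ^ 2 := by gcongr
      _ = C ^ 2 * (1 / r) ^ (2 * k) * (1 + ‖E‖) ^ (-(2 * κ)) := by
          have h5 : ((1 + ‖E‖) ^ (-κ)) ^ 2 = (1 + ‖E‖) ^ (-(2 * κ)) := by
            rw [← Real.rpow_natCast, ← Real.rpow_mul (by positivity)]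
            congr 1
            push_cast
            ring
          rw [mul_pow, mul_pow, h5, ← pow_mul, mul_comm k 2]
  have hle : ENNReal.ofReal (2 * Real.pi) * ENNReal.ofReal (∫ y in Set.Ioi (0 : ℝ), w y ^ 2) ≤
      ENNReal.ofReal (C ^ 2 * (1 / r) ^ (2 * k) * K) := by
    rw [← hval, ← hpl]
    refine (lintegral_mono hfb).trans (le_of_eq ?_)
    rw [← ofReal_integral_eq_lintegral_ofReal (hKi.const_mul _)
      (Eventually.of_forall fun E => by positivity), integral_const_mul, ← hK]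
  rw [← ENNReal.ofReal_mul (by positivity)] at hle
  have hle2 := (ENNReal.ofReal_le_ofReal_iff (by positivity)).1 hle
  have hint0 : 0 ≤ ∫ y in Set.Ioi (0 : ℝ), w y ^ 2 := integral_nonneg fun y => by positivity
  have hpi : 1 ≤ 2 * Real.pi := by
    have := Real.pi_gt_three
    linarith
  have hr0 : 0 ≤ (1 / r) ^ (2 * k) := by positivity
  calc ∫ y in Set.Ioi (0 : ℝ), w y ^ 2
      ≤ 2 * Real.pi * ∫ y in Set.Ioi (0 : ℝ), w y ^ 2 := by nlinarith
    _ ≤ C ^ 2 * (1 / r) ^ (2 * k) * K := hle2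
    _ ≤ (C ^ 2 * K + 1) * (1 / r) ^ (2 * k) := by nlinarith

end Pool.OMH
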