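import Pool.Agent.OMH.Low
import Pool.Agent.OMH.Sq
import Pool.Agent.OMG.Win

/-!
# OMH MEAS: the set where the bias is large is not small

Let `Θ` be `1/2` or the supremum of the real parts of the zeros with real part `> 1/2`. `δ = ε/4`,
`z = s0 - 1/2 >= 8/δ^2`, `I = [(1-δ)k/z, (1+δ)k/z]` inside `[Y, (1+ε)Y]` (as `range_exists` in
`Pool.Agent.OMG.Loc`), `f = A(e^y) e^(-s0 y) y^k/k!`, `E` the set with `A(e^y) < -c e^(y/2)/y`.
`-J_k <= c/(k z^k) + int_(E ∩ I) |f| + 2 C q^k/z^k` (`A_bound`, `gam_int`, `win`), so by `low`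
`int_(E ∩ I) |f| >= (a/2) k^(-m) R^(-k)` for large `k`, and by Cauchy-Schwarz and `sq_bound`
(`r = s0 - Θ - η`): `vol(E ∩ I) >= (a^2/(4C')) k^(-2m) (r/R)^(2k)`, `R <= s0 - Θ + η`,
`k <= 2 z Y`, at least `exp(-ε Y)` for `η = ε/40` and large `Y`.
-/

set_option autoImplicit false

open Complex Finset Filter Topology MeasureTheory Pool.OMG

namespace Pool.OMH

/-- for large `Y` there are `N + 1` consecutive `k` whose window lies in `[Y, (1+ε)Y]` -/
private lemma range_exists {ε δ z : ℝ} (hε : 0 < ε) (hε1 : ε ≤ 1) (hδ : δ = ε / 4) (hz : 0 < z)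
    (N K : ℕ) : ∃ Y0 : ℝ, 0 < Y0 ∧ ∀ Y : ℝ, Y0 ≤ Y → ∃ k0 : ℕ, K ≤ k0 ∧ 1 ≤ k0 ∧ ∀ k : ℕ,
      k0 ≤ k → k ≤ k0 + N → Y ≤ (1 - δ) * k / z ∧ (1 + δ) * k / z ≤ (1 + ε) * Y := by
  have hδ0 : 0 < δ := by rw [hδ]; linarith
  have hδ1 : δ ≤ 1 / 4 := by rw [hδ]; linarith
  have h1 : 0 < 1 - δ := by linarith
  refine ⟨max ((K + 1) / z) (6 * (N + 1) / (z * ε)), lt_max_of_lt_left (by positivity), ?_⟩
  intro Y hY
  have hY1 : ((K : ℝ) + 1) / z ≤ Y := le_trans (le_max_left _ _) hY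
  have hY2 : 6 * ((N : ℝ) + 1) / (z * ε) ≤ Y := le_trans (le_max_right _ _) hY
  have hY0 : 0 < Y := lt_of_lt_of_le (by positivity) hY1
  have hk0 : Y * z / (1 - δ) ≤ (⌈Y * z / (1 - δ)⌉₊ : ℝ) := Nat.le_ceil _
  have hk1 : (⌈Y * z / (1 - δ)⌉₊ : ℝ) < Y * z / (1 - δ) + 1 := Nat.ceil_lt_add_one (by positivity)
  have hYz : (K : ℝ) + 1 ≤ Y * z / (1 - δ) := by
    rw [div_le_iff₀ hz] at hY1
    rw [le_div_iff₀ h1]
    have : ((K : ℝ) + 1) * (1 - δ) ≤ (K + 1) := by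
      have : (0 : ℝ) ≤ K := Nat.cast_nonneg K
      nlinarith
    linarith
  refine ⟨⌈Y * z / (1 - δ)⌉₊, ?_, ?_, ?_⟩
  · have : (K : ℝ) ≤ (⌈Y * z / (1 - δ)⌉₊ : ℝ) := by linarith
    exact_mod_cast this
  · have : (1 : ℝ) ≤ (⌈Y * z / (1 - δ)⌉₊ : ℝ) := by
      have : (0 : ℝ) ≤ K := Nat.cast_nonneg K
      linarith
    exact_mod_cast this
  · intro k hk hk'
    have hkr : (⌈Y * z / (1 - δ)⌉₊ : ℝ) ≤ k := by exact_mod_cast hk
    have hkr' : (k : ℝ) ≤ ⌈Y * z / (1 - δ)⌉₊ + N := by exact_mod_cast hk'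
    constructor
    · rw [le_div_iff₀ hz]
      have : Y * z / (1 - δ) ≤ k := hk0.trans hkr
      rw [div_le_iff₀ h1] at this
      linarith
    · rw [div_le_iff₀ hz]
      have h2 : (k : ℝ) ≤ Y * z / (1 - δ) + 1 + N := by linarith
      have h3 : (1 + δ) * (k : ℝ) ≤ (1 + δ) * (Y * z / (1 - δ) + 1 + N) :=
        mul_le_mul_of_nonneg_left h2 (by linarith)
      refine h3.trans ?_
      have h4 : (1 + δ) * (Y * z / (1 - δ)) ≤ (1 + 2 / 3 * ε) * (Y * z) := by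
        have h5 : (1 + δ) / (1 - δ) ≤ 1 + 2 / 3 * ε := by
          rw [div_le_iff₀ h1, hδ]
          nlinarith
        calc (1 + δ) * (Y * z / (1 - δ)) = (1 + δ) / (1 - δ) * (Y * z) := by ring
          _ ≤ _ := mul_le_mul_of_nonneg_right h5 (by positivity)
      have h6 : (1 + δ) * (1 + N) ≤ ε / 3 * (Y * z) := by
        rw [div_le_iff₀ (by positivity)] at hY2
        have : (1 + δ) * (1 + (N : ℝ)) ≤ 2 * (N + 1) := by
          have : (0 : ℝ) ≤ N := Nat.cast_nonneg N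
          nlinarith
        nlinarith
      nlinarith

/-- pointwise bound for the integrand of `J` -/
private lemma f_abs {s0 z : ℝ} (hz : z = s0 - 1 / 2) {y : ℝ} (hy : 0 < y) (k : ℕ) :
    |A (Real.exp y) * Real.exp (-s0 * y) * y ^ k / (k.factorial : ℝ)| ≤
      2 * ((1 + y) * Real.exp (y / 2) * Real.exp (-z * y) * y ^ k / (k.factorial : ℝ)) := by
  have hA := A_bound hy.le
  have hf : (0 : ℝ) < k.factorial := by exact_mod_cast k.factorial_pos
  rw [abs_div, abs_mul, abs_mul, abs_of_pos (Real.exp_pos _), abs_of_pos (pow_pos hy k),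
    abs_of_pos hf, ← mul_div_assoc]
  apply div_le_div_of_nonneg_right _ hf.le
  have he : Real.exp y * Real.exp (-s0 * y) = Real.exp (y / 2) * Real.exp (-z * y) := by
    rw [← Real.exp_add, ← Real.exp_add]
    congr 1
    rw [hz]; ring
  have h3 : |A (Real.exp y)| * Real.exp (-s0 * y) * y ^ k ≤
      2 * (1 + y) * Real.exp y * Real.exp (-s0 * y) * y ^ k := by
    gcongr
  calc |A (Real.exp y)| * Real.exp (-s0 * y) * y ^ k ≤
      2 * (1 + y) * Real.exp y * Real.exp (-s0 * y) * y ^ k := h3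
    _ = 2 * (1 + y) * (Real.exp y * Real.exp (-s0 * y)) * y ^ k := by ring
    _ = _ := by rw [he]; ring

/-- main term -/
private lemma f_main {s0 z : ℝ} (hz : z = s0 - 1 / 2) {y : ℝ} (hy : 0 < y) {k : ℕ} (hk : 1 ≤ k)
    (c : ℝ) :
    -c * Real.exp (y / 2) / y * Real.exp (-s0 * y) * y ^ k / (k.factorial : ℝ) =
      -c * (y ^ (k - 1) * Real.exp (-z * y) / (k.factorial : ℝ)) := by
  have he : Real.exp (y / 2) * Real.exp (-s0 * y) = Real.exp (-z * y) := by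
    rw [← Real.exp_add]
    congr 1
    rw [hz]; ring
  have hp : y ^ k = y ^ (k - 1) * y := by
    rw [← pow_succ]; congr 1; omega
  rw [hp, ← he]
  field_simp

private lemma f_main_le {s0 : ℝ} {y : ℝ} (hy : 0 < y) {k : ℕ} {a b : ℝ} (h : a ≤ b) :
    a * Real.exp (-s0 * y) * y ^ k / (k.factorial : ℝ) ≤
      b * Real.exp (-s0 * y) * y ^ k / (k.factorial : ℝ) := by
  gcongr

private lemma set_int {I : Set ℝ} (hI : MeasurableSet I) (f : ℝ → ℝ) :
    ∫ y in Set.Ioi (0 : ℝ), (Iᶜ).indicator f y = ∫ y in Set.Ioi (0 : ℝ) \ I, f y := by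
  rw [setIntegral_indicator hI.compl]
  rfl


private lemma small_pow {q a : ℝ} (C : ℝ) (m : ℕ) (hq : 0 < q) (hq1 : q < 1) (ha : 0 < a) :
    ∃ K : ℕ, ∀ k : ℕ, K ≤ k → 4 * C * ((k : ℝ) ^ m * q ^ k) < a := by
  have h := tendsto_pow_const_mul_const_pow_of_lt_one m hq.le hq1
  have h2 := h.const_mul (4 * C)
  rw [mul_zero] at h2
  have h3 := h2.eventually (gt_mem_nhds ha)
  exact eventually_atTop.1 h3

private lemma theta_exists : ∃ Θ : ℝ, 1 / 2 ≤ Θ ∧ Θ ≤ 1 ∧ (∀ s : ℂ, Θ < s.re → Lf s ≠ 0) ∧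
    (Θ = 1 / 2 ∨ ∀ η : ℝ, 0 < η → ∃ ρ : ℂ, Lf ρ = 0 ∧ Θ - η < ρ.re ∧ 1 / 2 < ρ.re) := by
  set Z : Set ℝ := {x | ∃ ρ : ℂ, Lf ρ = 0 ∧ 1 / 2 < ρ.re ∧ ρ.re = x} with hZ
  have hb : ∀ x ∈ Z, x ≤ 1 := by
    rintro x ⟨ρ, h1, h2, rfl⟩
    by_contra h
    push Not at h
    exact DirichletCharacter.LFunction_ne_zero_of_one_le_re chi (Or.inl chi_ne_one) h.le h1
  rcases Z.eq_empty_or_nonempty with h | h
  · refine ⟨1 / 2, le_rfl, by norm_num, ?_, Or.inl rfl⟩
    intro s hs h0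
    have : s.re ∈ Z := ⟨s, h0, hs, rfl⟩
    rw [h] at this
    exact this
  · have h12 : 1 / 2 ≤ sSup Z := by
      obtain ⟨x, ρ, h1, h2, rfl⟩ := h
      exact (h2.le).trans (le_csSup ⟨1, hb⟩ ⟨ρ, h1, h2, rfl⟩)
    refine ⟨sSup Z, h12, csSup_le h hb, ?_, Or.inr ?_⟩
    · intro s hs h0
      have : s.re ∈ Z := ⟨s, h0, lt_of_le_of_lt h12 hs, rfl⟩
      exact absurd (le_csSup ⟨1, hb⟩ this) (not_le.2 hs)
    · intro η hη
      obtain ⟨x, ⟨ρ, h1, h2, rfl⟩, hx⟩ :=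
        exists_lt_of_lt_csSup h (show sSup Z - η < sSup Z by linarith)
      exact ⟨ρ, h1, hx, h2⟩

/-- Cauchy-Schwarz on a set of finite measure -/
private lemma meas_cs {S : Set ℝ} {f : ℝ → ℝ} (hS : MeasurableSet S) (hv : volume S ≠ ⊤)
    (hf : IntegrableOn f S) (hf2 : IntegrableOn (fun y => f y ^ 2) S) {a b : ℝ} (ha : 0 < a)
    (hb : 0 < b) (h1 : a ≤ ∫ y in S, |f y|) (h2 : ∫ y in S, f y ^ 2 ≤ b) :
    a ^ 2 / b ≤ volume.real S := by
  set t := a / b with ht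
  have ht0 : 0 < t := div_pos ha hb
  have hpt : ∀ y ∈ S, |f y| ≤ t / 2 * f y ^ 2 + 1 / (2 * t) := by
    intro y _
    have h3 : 0 ≤ (t * |f y| - 1) ^ 2 := sq_nonneg _
    have h4 : f y ^ 2 = |f y| ^ 2 := (sq_abs _).symm
    rw [h4]
    have h5 : t / 2 * |f y| ^ 2 + 1 / (2 * t) - |f y| = (t * |f y| - 1) ^ 2 / (2 * t) := by
      field_simp
      ring
    have h6 : 0 ≤ (t * |f y| - 1) ^ 2 / (2 * t) := by positivity
    linarith
  have hc : IntegrableOn (fun _ : ℝ => 1 / (2 * t)) S := integrableOn_const hv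
  have h3 := setIntegral_mono_on hf.abs ((hf2.const_mul (t / 2)).add hc) hS hpt
  have h4 : ∫ y in S, (t / 2 * f y ^ 2 + 1 / (2 * t)) =
      t / 2 * (∫ y in S, f y ^ 2) + volume.real S * (1 / (2 * t)) := by
    rw [integral_add (hf2.const_mul (t / 2)) hc, integral_const_mul, setIntegral_const,
      smul_eq_mul]
  have h5 : a ≤ t / 2 * b + volume.real S * (1 / (2 * t)) := by
    have h6 : t / 2 * (∫ y in S, f y ^ 2) ≤ t / 2 * b :=
      mul_le_mul_of_nonneg_left h2 (by positivity)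
    have h3' : ∫ y in S, |f y| ≤ ∫ y in S, (t / 2 * f y ^ 2 + 1 / (2 * t)) := h3
    rw [h4] at h3'
    linarith
  have h6 : t / 2 * b = a / 2 := by rw [ht]; field_simp
  have h7 : volume.real S * (1 / (2 * t)) = volume.real S * b / (2 * a) := by
    rw [ht]; field_simp
  rw [h6, h7] at h5
  rw [div_le_iff₀ hb]
  have h8 : a / 2 ≤ volume.real S * b / (2 * a) := by linarith
  rw [le_div_iff₀ (by positivity)] at h8
  nlinarith

/-- lower bound for the measure of the bias set in the window of `k` -/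
private lemma window {δ s0 z c C q L b : ℝ} {k : ℕ} (h1 : 1 < s0) (hz : z = s0 - 1 / 2)
    (hc : 0 < c) (hk : 1 ≤ k)
    (hw : ∫ y in Set.Ioi (0 : ℝ) \ Set.Icc ((1 - δ) * k / z) ((1 + δ) * k / z),
        (1 + y) * Real.exp (y / 2) * Real.exp (-z * y) * y ^ k / (k.factorial : ℝ) ≤
          C * q ^ k / z ^ k)
    (hJ : J s0 k + c / k * (1 / z) ^ k ≤ -L) (hL : 2 * (C * q ^ k / z ^ k) ≤ L / 2) (hL0 : 0 < L)
    (hb : 0 < b)
    (hsq : IntegrableOn (fun y : ℝ => (A (Real.exp y) * Real.exp (-s0 * y) * y ^ k /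
        (k.factorial : ℝ)) ^ 2) (Set.Ioi 0))
    (hsq2 : ∫ y in Set.Ioi (0 : ℝ), (A (Real.exp y) * Real.exp (-s0 * y) * y ^ k /
        (k.factorial : ℝ)) ^ 2 ≤ b) :
    (L / 2) ^ 2 / b ≤ volume.real {y : ℝ | 0 < y ∧ ((1 - δ) * k / z ≤ y ∧ y ≤ (1 + δ) * k / z) ∧
      A (Real.exp y) < -c * Real.exp (y / 2) / y} := by
  have hzpos : 0 < z := by linarith
  have hz2 : 1 / 2 < z := by linarith
  set I : Set ℝ := Set.Icc ((1 - δ) * k / z) ((1 + δ) * k / z) with hI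
  have hIm : MeasurableSet I := measurableSet_Icc
  set S : Set ℝ := {y : ℝ | 0 < y ∧ ((1 - δ) * k / z ≤ y ∧ y ≤ (1 + δ) * k / z) ∧
      A (Real.exp y) < -c * Real.exp (y / 2) / y} with hS
  have hSm : MeasurableSet S := by
    apply MeasurableSet.inter measurableSet_Ioi
    apply MeasurableSet.inter hIm
    apply measurableSet_lt (A_measurable.comp Real.measurable_exp)
    exact (measurable_const.mul (Real.measurable_exp.comp (measurable_id.div_const 2))).div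
      measurable_id
  have hSI : S ⊆ I := fun y hy => hy.2.1
  have hS0 : S ⊆ Set.Ioi 0 := fun y hy => hy.1
  have hSv : volume S ≠ ⊤ := by
    refine ne_top_of_le_ne_top ?_ (measure_mono hSI)
    rw [hI, Real.volume_Icc]
    exact ENNReal.ofReal_ne_top
  set f : ℝ → ℝ := fun y => A (Real.exp y) * Real.exp (-s0 * y) * y ^ k / (k.factorial : ℝ) with hf
  set g : ℝ → ℝ := fun y => y ^ (k - 1) * Real.exp (-z * y) / (k.factorial : ℝ) with hg
  set w : ℝ → ℝ := fun y => (1 + y) * Real.exp (y / 2) * Real.exp (-z * y) * y ^ k /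
      (k.factorial : ℝ) with hw'
  have hfi : IntegrableOn f (Set.Ioi 0) := J_integrable h1 k
  obtain ⟨hgi, hgI⟩ := gam_int hzpos k hk
  have hwi : IntegrableOn w (Set.Ioi 0) := win_integrable hz2 k
  have hwi' : IntegrableOn ((Iᶜ).indicator w) (Set.Ioi 0) := hwi.indicator hIm.compl
  have hai : IntegrableOn (fun y => |f y|) (Set.Ioi 0) := hfi.abs
  have hai' : IntegrableOn (S.indicator (fun y => |f y|)) (Set.Ioi 0) := hai.indicator hSm
  have hpt : ∀ y ∈ Set.Ioi (0 : ℝ),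
      -c * g y - 2 * (Iᶜ).indicator w y - S.indicator (fun y => |f y|) y ≤ f y := by
    intro y hy
    have hy : 0 < y := hy
    have hg0 : 0 ≤ g y := by simp only [hg]; positivity
    have hw0 : 0 ≤ w y := by simp only [hw']; positivity
    have hcg : 0 ≤ c * g y := mul_nonneg hc.le hg0
    have hS1 : 0 ≤ S.indicator (fun y => |f y|) y := Set.indicator_nonneg (fun _ _ => abs_nonneg _) y
    by_cases hyI : y ∈ I
    · have hmem : y ∉ Iᶜ := fun h => h hyI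
      rw [Set.indicator_of_notMem hmem]
      by_cases hyS : y ∈ S
      · rw [Set.indicator_of_mem hyS]
        have := neg_abs_le (f y)
        linarith
      · have hA : -c * Real.exp (y / 2) / y ≤ A (Real.exp y) := by
          by_contra hcon
          exact hyS ⟨hy, hyI, not_le.1 hcon⟩
        have h2 := f_main_le (s0 := s0) hy (k := k) hA
        rw [f_main hz hy hk] at h2
        have h3 : -c * g y ≤ f y := h2
        linarith
    · have hmem : y ∈ Iᶜ := hyI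
      rw [Set.indicator_of_mem hmem]
      have h2 := (abs_le.1 (f_abs hz hy k)).1
      have h4 : -(2 * w y) ≤ f y := h2
      linarith
  have hint : ∫ y in Set.Ioi (0 : ℝ),
      (-c * g y - 2 * (Iᶜ).indicator w y - S.indicator (fun y => |f y|) y) ≤
      ∫ y in Set.Ioi (0 : ℝ), f y :=
    setIntegral_mono_on (((hgi.const_mul _).sub (hwi'.const_mul _)).sub hai') hfi
      measurableSet_Ioi hpt
  have hSint : ∫ y in Set.Ioi (0 : ℝ), S.indicator (fun y => |f y|) y = ∫ y in S, |f y| := by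
    rw [setIntegral_indicator hSm, Set.inter_eq_right.2 hS0]
  have hd : IntegrableOn (fun y => -c * g y - 2 * (Iᶜ).indicator w y) (Set.Ioi 0) :=
    (hgi.const_mul _).sub (hwi'.const_mul _)
  rw [integral_sub hd hai',
    integral_sub (hgi.const_mul _) (hwi'.const_mul _), integral_const_mul, integral_const_mul,
    set_int hIm, hgI, hSint] at hint
  have hJk : ∫ y in Set.Ioi (0 : ℝ), f y = J s0 k := rfl
  rw [hJk] at hint
  have hwk : ∫ y in Set.Ioi (0 : ℝ) \ I, w y ≤ C * q ^ k / z ^ k := hw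
  have hkr : (k : ℝ) ≠ 0 := by
    have : (0 : ℝ) < k := by exact_mod_cast hk
    exact this.ne'
  have e1 : c / k * (1 / z) ^ k = c * (1 / ((k : ℝ) * z ^ k)) := by
    rw [one_div_pow]; field_simp
  rw [e1] at hJ
  have hfin : L / 2 ≤ ∫ y in S, |f y| := by linarith
  have hsqS : IntegrableOn (fun y => f y ^ 2) S := hsq.mono_set hS0
  have hsqS2 : ∫ y in S, f y ^ 2 ≤ b := by
    refine le_trans ?_ hsq2
    refine setIntegral_mono_set hsq ?_ (Filter.Eventually.of_forall fun y hy => hS0 hy)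
    exact Filter.Eventually.of_forall fun y => sq_nonneg _
  exact meas_cs hSm hSv (hfi.mono_set hS0) hsqS (by linarith) hb hfin hsqS2

/-- exponentials beat powers -/
private lemma num_large {ε z D : ℝ} (m : ℕ) (hε : 0 < ε) (hz : 0 < z) (hD : 0 < D) :
    ∃ Y2 : ℝ, 0 < Y2 ∧ ∀ Y : ℝ, Y2 ≤ Y →
      Real.exp (-ε * Y) ≤ D * (1 / (2 * z * Y) ^ (2 * m)) * Real.exp (-(2 / 5 * ε) * Y) := by
  have h := Real.tendsto_pow_mul_exp_neg_atTop_nhds_zero (2 * m)
  have hτ : 0 < D * (3 / 5 * ε / (2 * z)) ^ (2 * m) := by positivity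
  obtain ⟨X0, hX0⟩ := eventually_atTop.1 (h.eventually (gt_mem_nhds hτ))
  refine ⟨max 1 (X0 / (3 / 5 * ε)), by positivity, fun Y hY => ?_⟩
  have hY1 : 1 ≤ Y := le_trans (le_max_left _ _) hY
  have hY2 : X0 / (3 / 5 * ε) ≤ Y := le_trans (le_max_right _ _) hY
  have hY0 : 0 < Y := by linarith
  have hx : X0 ≤ 3 / 5 * ε * Y := by
    rw [div_le_iff₀ (by positivity)] at hY2
    linarith
  have h3 := (hX0 _ hx).le
  have e1 : (2 * z * Y) ^ (2 * m) * (3 / 5 * ε / (2 * z)) ^ (2 * m) =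
      (3 / 5 * ε * Y) ^ (2 * m) := by
    rw [← mul_pow]; congr 1; field_simp
  have hp : 0 < (2 * z * Y) ^ (2 * m) := by positivity
  have hp2 : 0 < (3 / 5 * ε / (2 * z)) ^ (2 * m) := by positivity
  have h4 : (2 * z * Y) ^ (2 * m) * Real.exp (-(3 / 5 * ε * Y)) ≤ D := by
    rw [← e1] at h3
    have h5 : ((2 * z * Y) ^ (2 * m) * Real.exp (-(3 / 5 * ε * Y))) *
        (3 / 5 * ε / (2 * z)) ^ (2 * m) ≤ D * (3 / 5 * ε / (2 * z)) ^ (2 * m) := by
      calc _ = (2 * z * Y) ^ (2 * m) * (3 / 5 * ε / (2 * z)) ^ (2 * m) *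
            Real.exp (-(3 / 5 * ε * Y)) := by ring
        _ ≤ _ := h3
    exact le_of_mul_le_mul_right h5 hp2
  have e2 : Real.exp (-ε * Y) = Real.exp (-(3 / 5 * ε * Y)) * Real.exp (-(2 / 5 * ε) * Y) := by
    rw [← Real.exp_add]; congr 1; ring
  rw [e2]
  apply mul_le_mul_of_nonneg_right _ (Real.exp_pos _).le
  rw [mul_one_div, le_div_iff₀ hp]
  linarith

private lemma alg_e3 {a C' P X W : ℝ} (hC' : 0 < C') (hP : 0 < P) (hX : 0 < X) (hW : 0 < W) :
    (a / P * (1 / X) / 2) ^ 2 / (C' * (1 / W ^ 2)) =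
      a ^ 2 / (4 * C') * (1 / P ^ 2) * (W ^ 2 / X ^ 2) := by
  field_simp
  ring

theorem meas {c ε : ℝ} (hc : 0 < c) (hcL : c < Lhalf) (hε : 0 < ε) (hε1 : ε ≤ 1) :
    ∃ Y0 : ℝ, ∀ Y : ℝ, Y0 ≤ Y → Real.exp (-ε * Y) ≤
      volume.real {y : ℝ | Y ≤ y ∧ y ≤ (1 + ε) * Y ∧
        A (Real.exp y) < -c * Real.exp (y / 2) / y} := by
  obtain ⟨Θ, hΘ, hΘ1, hz0, hsup⟩ := theta_exists
  set δ := ε / 4 with hδ
  have hδ0 : 0 < δ := by positivity
  have hδ4 : δ ≤ 1 / 4 := by rw [hδ]; linarith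
  set η := ε / 40 with hη
  have hη0 : 0 < η := by positivity
  have hη1 : η ≤ 1 / 40 := by rw [hη]; linarith
  obtain ⟨s0, hB, h1, m, N, K, a, R, ha, hR, hR1, hR2, hlow⟩ :=
    low hΘ hz0 hsup hcL hη0 (8 / δ ^ 2 + 1 / 2)
  set z := s0 - 1 / 2 with hzdef
  have hz8 : 8 / δ ^ 2 ≤ z := by rw [hzdef]; linarith
  have hz128 : 128 ≤ z := by
    refine le_trans ?_ hz8
    rw [le_div_iff₀ (by positivity)]
    nlinarith
  have hzpos : 0 < z := by linarith
  obtain ⟨C, q, hC, hq, hq1, hw⟩ := win hδ0 (by linarith) hz8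
  set r := s0 - Θ - η with hr
  have hrz : z / 2 ≤ r := by rw [hr]; linarith
  have hr0 : 0 < r := by linarith
  obtain ⟨C', hC', hsq⟩ := sq_bound hΘ hz0 h1 hr0 (by linarith)
  obtain ⟨K1, hK1⟩ := small_pow C m hq hq1 ha
  obtain ⟨Y1, hY1pos, hY1⟩ := range_exists (z := z) hε hε1 hδ hzpos N (max K K1)
  obtain ⟨Y2, hY2pos, hY2⟩ := num_large (D := a ^ 2 / (4 * C')) m hε hzpos (by positivity)
  refine ⟨max Y1 Y2, fun Y hY => ?_⟩
  have hYY1 : Y1 ≤ Y := le_trans (le_max_left _ _) hY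
  have hYY2 : Y2 ≤ Y := le_trans (le_max_right _ _) hY
  have hYpos : 0 < Y := lt_of_lt_of_le hY1pos hYY1
  obtain ⟨k0, hk0, hk01, hkk⟩ := hY1 Y hYY1
  obtain ⟨k, hk1, hk2, hJ⟩ := hlow k0 (le_trans (le_max_left _ _) hk0)
  obtain ⟨hkY, hkY'⟩ := hkk k hk1 hk2
  have hk : 1 ≤ k := by omega
  have hkr : (0 : ℝ) < k := by exact_mod_cast hk
  have hsmall := hK1 k (le_trans (le_trans (le_max_right _ _) hk0) hk1)
  set L := a / (k : ℝ) ^ m * (1 / R) ^ k with hLdef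
  have hL0 : 0 < L := by positivity
  have hRz : (1 / z) ^ k ≤ (1 / R) ^ k := by
    apply pow_le_pow_left₀ (by positivity)
    exact one_div_le_one_div_of_le hR hR2
  have hL : 2 * (C * q ^ k / z ^ k) ≤ L / 2 := by
    have e1 : 2 * (C * q ^ k / z ^ k) = 2 * C * q ^ k * (1 / z) ^ k := by
      rw [one_div_pow]; ring
    have e2 : 2 * C * q ^ k ≤ a / (k : ℝ) ^ m / 2 := by
      rw [div_div, le_div_iff₀ (by positivity)]
      have : 2 * C * q ^ k * ((k : ℝ) ^ m * 2) = 4 * C * ((k : ℝ) ^ m * q ^ k) := by ring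
      rw [this]
      exact hsmall.le
    calc 2 * (C * q ^ k / z ^ k) = 2 * C * q ^ k * (1 / z) ^ k := e1
      _ ≤ a / (k : ℝ) ^ m / 2 * (1 / R) ^ k := by
        apply mul_le_mul e2 hRz (by positivity) (by positivity)
      _ = L / 2 := by rw [hLdef]; ring
  have hb : 0 < C' * (1 / r) ^ (2 * k) := by positivity
  have hwin := window h1 hzdef hc hk (hw k hk).1 hJ hL hL0 hb (hsq k).1 (hsq k).2
  -- comparison of the sets
  have hsub : {y : ℝ | 0 < y ∧ ((1 - δ) * k / z ≤ y ∧ y ≤ (1 + δ) * k / z) ∧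
      A (Real.exp y) < -c * Real.exp (y / 2) / y} ⊆ {y : ℝ | Y ≤ y ∧ y ≤ (1 + ε) * Y ∧
        A (Real.exp y) < -c * Real.exp (y / 2) / y} := by
    rintro y ⟨_, ⟨hy1, hy2⟩, hy3⟩
    exact ⟨hkY.trans hy1, hy2.trans hkY', hy3⟩
  have hfinv : volume {y : ℝ | Y ≤ y ∧ y ≤ (1 + ε) * Y ∧
        A (Real.exp y) < -c * Real.exp (y / 2) / y} ≠ ⊤ := by
    refine ne_top_of_le_ne_top ?_ (measure_mono (t := Set.Icc Y ((1 + ε) * Y))
      (fun y hy => ⟨hy.1, hy.2.1⟩))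
    rw [Real.volume_Icc]
    exact ENNReal.ofReal_ne_top
  refine le_trans ?_ (measureReal_mono hsub hfinv)
  refine le_trans ?_ hwin
  -- numbers
  refine (hY2 Y hYY2).trans ?_
  have hkz : (k : ℝ) ≤ 2 * z * Y := by
    rw [div_le_iff₀ hzpos] at hkY'
    have h3 : (k : ℝ) ≤ (1 + δ) * k := by nlinarith
    have h4 : (1 + ε) * Y * z ≤ 2 * z * Y := by
      have : 0 < Y * z := by positivity
      nlinarith
    linarith
  have hkp : (k : ℝ) ^ (2 * m) ≤ (2 * z * Y) ^ (2 * m) := pow_le_pow_left₀ hkr.le hkz _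
  have hkp0 : 0 < (k : ℝ) ^ (2 * m) := by positivity
  -- the exponential
  have hrR : Real.exp (-(2 * η / r)) ≤ r / R := by
    have h3 : 2 * η / r + 1 ≤ Real.exp (2 * η / r) := Real.add_one_le_exp _
    have h4 : R ≤ r + 2 * η := by rw [hr]; linarith
    have h5 : r / (r + 2 * η) ≤ r / R := div_le_div_of_nonneg_left hr0.le hR h4
    refine le_trans ?_ h5
    rw [Real.exp_neg, inv_eq_one_div, div_le_div_iff₀ (Real.exp_pos _) (by positivity)]
    have h6 : r * (2 * η / r + 1) = r + 2 * η := by field_simp; ring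
    have h7 := mul_le_mul_of_nonneg_left h3 hr0.le
    linarith
  have hexp : Real.exp (-(2 / 5 * ε) * Y) ≤ (r / R) ^ (2 * k) := by
    refine le_trans ?_ (pow_le_pow_left₀ (Real.exp_pos _).le hrR _)
    rw [← Real.exp_nat_mul]
    apply Real.exp_le_exp.2
    push_cast
    have h3 : 2 * (k : ℝ) * (2 * η / r) ≤ 2 / 5 * ε * Y := by
      rw [← mul_div_assoc, div_le_iff₀ hr0]
      have h4 : 2 * (k : ℝ) * (2 * η) ≤ 2 * (2 * z * Y) * (2 * η) := by gcongr
      have h5 : 2 * (2 * z * Y) * (2 * η) = 2 / 5 * ε * Y * (z / 2) := by rw [hη]; ring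
      have h6 : 2 / 5 * ε * Y * (z / 2) ≤ 2 / 5 * ε * Y * r :=
        mul_le_mul_of_nonneg_left hrz (by positivity)
      linarith
    have h4 : 2 * (k : ℝ) * -(2 * η / r) = -(2 * (k : ℝ) * (2 * η / r)) := by ring
    rw [h4]
    linarith
  have e3 : (L / 2) ^ 2 / (C' * (1 / r) ^ (2 * k)) =
      a ^ 2 / (4 * C') * (1 / (k : ℝ) ^ (2 * m)) * (r / R) ^ (2 * k) := by
    rw [hLdef, one_div_pow, one_div_pow, div_pow r R, pow_mul' (k : ℝ) 2 m, pow_mul' r 2 k,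
      pow_mul' R 2 k]
    exact alg_e3 hC' (by positivity) (by positivity) (by positivity)
  rw [e3]
  apply mul_le_mul _ hexp (Real.exp_pos _).le (by positivity)
  apply mul_le_mul_of_nonneg_left _ (by positivity)
  exact one_div_le_one_div_of_le hkp0 hkp

end Pool.OMH
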